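import Pool.Agent.L5helper47.TP.Gen
import Mathlib.NumberTheory.MulChar.Lemmas

/-!
# Degrees with two odd prime factors
-/

set_option linter.unusedSectionVars false
set_option autoImplicit false

namespace Pool.Agent.L5helper47.TP

open Finset

/-- characters with a given value at a given unit -/
lemma exists_chi {q : ℕ} (hq : q.Prime) (hq2 : q ≠ 2) (x : (ZMod q)ˣ) {e : ℕ} (he1 : 1 ≤ e)
    (hev : 2 ^ e ∣ orderOf x) {ζ : ℂ} (hζ : IsPrimitiveRoot ζ (2 ^ e)) :
    ∃ χ : DirichletCharacter ℂ q, Even (orderOf χ) ∧ χ (x : ZMod q) = ζ ∧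
      (2 ^ (e + 1) ∣ orderOf x → χ (-1) = 1) ∧ (¬ 2 ^ (e + 1) ∣ orderOf x → χ (-1) = -1) := by
  have : Fact q.Prime := ⟨hq⟩
  obtain ⟨g, hg⟩ := IsCyclic.exists_generator (α := (ZMod q)ˣ)
  have hordg : orderOf g = Fintype.card (ZMod q)ˣ := by
    rw [orderOf_eq_card_of_forall_mem_zpowers hg, Nat.card_eq_fintype_card]
  obtain ⟨a, ha⟩ : ∃ a : ℕ, g ^ a = x := by
    have h1 := mem_powers_iff_mem_zpowers.mpr (hg x)
    exact h1
  set N := Fintype.card (ZMod q)ˣ with hN
  have hNpos : 0 < N := Fintype.card_pos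
  have hordx : orderOf x = N / Nat.gcd N a := by rw [← ha, orderOf_pow, hordg]
  set d := Nat.gcd N a with hd
  have hdN : d ∣ N := Nat.gcd_dvd_left _ _
  have hdpos : 0 < d := Nat.gcd_pos_of_pos_left _ hNpos
  set w := orderOf x with hw
  have hNd : N = d * w := by rw [hordx, Nat.mul_div_cancel' hdN]
  have hwpos : 0 < w := by
    rcases Nat.eq_zero_or_pos w with h | h
    · rw [h, mul_zero] at hNd; omega
    · exact h
  obtain ⟨a1, ha1⟩ : d ∣ a := Nat.gcd_dvd_right _ _
  have hcop : Nat.Coprime w a1 := by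
    have h1 := Nat.coprime_div_gcd_div_gcd (m := N) (n := a) (by rw [← hd]; exact hdpos)
    rw [← hd, ← hordx] at h1
    have h2 : a / d = a1 := by rw [ha1, Nat.mul_div_cancel_left _ hdpos]
    rwa [h2] at h1
  have h2w : 2 ∣ w := (dvd_pow_self 2 (by omega)).trans hev
  have ha1odd : ¬ 2 ∣ a1 := by
    intro h
    have h3 := Nat.dvd_gcd h2w h
    rw [hcop.gcd_eq_one] at h3
    omega
  obtain ⟨k, d', hd', hdk⟩ := Nat.exists_eq_two_pow_mul_odd hdpos.ne'
  obtain ⟨ξ1, hξ1⟩ := IsAlgClosed.exists_pow_nat_eq ζ (show 0 < 2 ^ k by positivity)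
  -- the exponent
  have hcop2 : Nat.Coprime (d' * a1) (2 ^ (k + e)) := by
    apply Nat.Coprime.pow_right
    rw [Nat.coprime_comm, Nat.prime_two.coprime_iff_not_dvd]
    intro h
    rcases Nat.prime_two.dvd_mul.mp h with h | h
    · exact (Nat.not_even_iff_odd.mpr hd') (even_iff_two_dvd.mpr h)
    · exact ha1odd h
  have h1lt : 1 < 2 ^ (k + e) := Nat.one_lt_two_pow (by omega)
  obtain ⟨b, _, hb⟩ := Nat.exists_mul_mod_eq_one_of_coprime hcop2 h1lt
  have hbmod : d' * a1 * b ≡ 1 [MOD 2 ^ (k + e)] := by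
    rw [Nat.ModEq, hb, Nat.mod_eq_of_lt h1lt]
  have hbodd : Odd b := by
    rw [← Nat.not_even_iff_odd]
    intro h
    have h1 : d' * a1 * b ≡ 1 [MOD 2] := hbmod.of_dvd (dvd_pow_self 2 (by omega))
    have h3 : Even (d' * a1 * b) := h.mul_left _
    rw [Nat.ModEq, Nat.even_iff.mp h3] at h1
    omega
  have hζe : ζ ^ (2 ^ e) = 1 := hζ.pow_eq_one
  have hξ1e : ξ1 ^ (2 ^ (k + e)) = 1 := by rw [pow_add, pow_mul, hξ1, hζe]
  have hζne : ζ ^ (2 ^ (e - 1)) = -1 := by
    have h1 : (ζ ^ (2 ^ (e - 1))) * (ζ ^ (2 ^ (e - 1))) = 1 := by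
      rw [← pow_add, ← two_mul, ← pow_succ', show e - 1 + 1 = e by omega, hζe]
    rcases mul_self_eq_one_iff.mp h1 with h | h
    · exfalso
      have h3 := hζ.dvd_of_pow_eq_one _ h
      have h4 := Nat.le_of_dvd (by positivity) h3
      have h5 : 2 ^ (e - 1) < 2 ^ e := Nat.pow_lt_pow_right (by norm_num) (by omega)
      omega
    · exact h
  set ξ := ξ1 ^ b with hξ
  have hξe : ξ ^ (2 ^ (k + e)) = 1 := by rw [hξ, ← pow_mul, mul_comm, pow_mul, hξ1e, one_pow]
  have hNdvd : 2 ^ (k + e) ∣ N := by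
    rw [hNd, hdk, pow_add]
    exact Nat.mul_dvd_mul (Dvd.intro _ rfl) hev
  have hξN : ξ ^ N = 1 := by
    obtain ⟨c, hc⟩ := hNdvd
    rw [hc, pow_mul, hξe, one_pow]
  have hξ0 : ξ ≠ 0 := by
    intro h
    rw [h, zero_pow hNpos.ne'] at hξN
    exact zero_ne_one hξN
  have hmem : Units.mk0 ξ hξ0 ∈ rootsOfUnity (Fintype.card (ZMod q)ˣ) ℂ := by
    rw [mem_rootsOfUnity]
    ext
    rw [Units.val_pow_eq_pow_val, Units.val_mk0, Units.val_one]
    exact hξN
  set χ : DirichletCharacter ℂ q := MulChar.ofRootOfUnity hmem hg with hχ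
  have hχg : χ (g : ZMod q) = ξ := by
    rw [hχ, MulChar.ofRootOfUnity_spec]
    rfl
  have hχx : χ (x : ZMod q) = ζ := by
    rw [← ha, Units.val_pow_eq_pow_val, map_pow, hχg, ha1, hξ, ← pow_mul, hdk]
    have h1 : b * (2 ^ k * d' * a1) = 2 ^ k * (d' * a1 * b) := by ring
    rw [h1, pow_mul, hξ1]
    have h2 : d' * a1 * b ≡ 1 [MOD 2 ^ e] := hbmod.of_dvd (pow_dvd_pow 2 (by omega))
    have h3 : (d' * a1 * b) % 2 ^ e = 1 := by
      rw [Nat.ModEq, Nat.mod_eq_of_lt (Nat.one_lt_two_pow (by omega) : 1 < 2 ^ e)] at h2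
      exact h2
    rw [← Nat.mod_add_div (d' * a1 * b) (2 ^ e), h3, pow_add, pow_one, pow_mul, hζe, one_pow,
      mul_one]
  have h2N : 2 ∣ N := h2w.trans (Dvd.intro_left d hNd.symm)
  have hgN : ((g ^ (N / 2) : (ZMod q)ˣ) : ZMod q) = -1 := by
    have h1 : ((g ^ (N / 2) : (ZMod q)ˣ) : ZMod q) * ((g ^ (N / 2) : (ZMod q)ˣ) : ZMod q) = 1 := by
      rw [← Units.val_mul, ← pow_add, ← two_mul, Nat.mul_div_cancel' h2N, ← hordg,
        pow_orderOf_eq_one, Units.val_one]
    rcases mul_self_eq_one_iff.mp h1 with h | h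
    · exfalso
      have h3 : g ^ (N / 2) = 1 := Units.ext h
      have h4 := orderOf_dvd_of_pow_eq_one h3
      rw [hordg] at h4
      have h5 := Nat.le_of_dvd (by omega) h4
      omega
    · exact h
  have hχneg : χ (-1) = ξ ^ (N / 2) := by
    rw [← hgN, Units.val_pow_eq_pow_val, map_pow, hχg]
  refine ⟨χ, ?_, hχx, ?_, ?_⟩
  · by_contra h
    rw [Nat.not_even_iff_odd] at h
    have h1 : χ ^ orderOf χ = 1 := pow_orderOf_eq_one χ
    have h3 : ζ ^ orderOf χ = 1 := by
      rw [← hχx, ← MulChar.pow_apply_coe, h1, MulChar.one_apply_coe]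
    have h4 := hζ.dvd_of_pow_eq_one _ h3
    have h5 : 2 ∣ orderOf χ := (dvd_pow_self 2 (by omega)).trans h4
    exact (Nat.not_even_iff_odd.mpr h) (even_iff_two_dvd.mpr h5)
  · rintro ⟨c, hc⟩
    have h1 : N / 2 = 2 ^ (k + e) * (d' * c) := by
      have h3 : N = 2 * (2 ^ (k + e) * (d' * c)) := by
        rw [hNd, hc, hdk]; ring
      omega
    rw [hχneg, h1, pow_mul, hξe, one_pow]
  · intro hnd
    obtain ⟨c, hc⟩ := hev
    have hcodd : Odd c := by
      rw [← Nat.not_even_iff_odd]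
      intro h
      obtain ⟨c', hc'⟩ := h
      exact hnd ⟨c', by rw [hc, hc']; ring⟩
    have h1 : N / 2 = 2 ^ k * (2 ^ (e - 1) * (d' * c)) := by
      have h3 : N = 2 * (2 ^ k * (2 ^ (e - 1) * (d' * c))) := by
        rw [hNd, hc, hdk]
        have h4 : 2 ^ e = 2 * 2 ^ (e - 1) := by rw [← pow_succ', show e - 1 + 1 = e by omega]
        rw [h4]; ring
      omega
    rw [hχneg, h1, hξ, ← pow_mul]
    have h3 : b * (2 ^ k * (2 ^ (e - 1) * (d' * c))) = 2 ^ k * (2 ^ (e - 1) * (b * (d' * c))) := by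
      ring
    rw [h3, pow_mul, hξ1, pow_mul, hζne]
    exact (hbodd.mul (hd'.mul hcodd)).neg_one_pow

variable {p m : ℕ}

lemma exists_two_pow {q : ℕ} (hq : q.Prime) (hpq : p.Coprime q) :
    ∃ v u : ℕ, Odd u ∧ orderOf (p : ZMod q) = 2 ^ v * u := by
  have : Fact q.Prime := ⟨hq⟩
  have h0 : orderOf (p : ZMod q) ≠ 0 := by
    have h1 : (p : ZMod q) = ((ZMod.unitOfCoprime p hpq : (ZMod q)ˣ) : ZMod q) := rfl
    rw [h1, orderOf_units]
    exact (orderOf_pos _).ne'
  obtain ⟨v, u, hu, h⟩ := Nat.exists_eq_two_pow_mul_odd h0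
  exact ⟨v, u, hu, h⟩

lemma pow_half {q : ℕ} (hq : q.Prime) {v u : ℕ} (hu : Odd u) (hv : 1 ≤ v)
    (h : orderOf (p : ZMod q) = 2 ^ v * u) {c : ℕ} (hc : Odd c) :
    q ∣ p ^ (2 ^ (v - 1) * (u * c)) + 1 := by
  have : Fact q.Prime := ⟨hq⟩
  have h2v : 2 ^ v = 2 * 2 ^ (v - 1) := by rw [← pow_succ', show v - 1 + 1 = v by omega]
  have h1 : (p : ZMod q) ^ (2 ^ (v - 1) * u) = -1 := by
    have h3 : (p : ZMod q) ^ (2 ^ (v - 1) * u) * (p : ZMod q) ^ (2 ^ (v - 1) * u) = 1 := by
      rw [← pow_add, ← two_mul, ← mul_assoc, ← h2v, ← h, pow_orderOf_eq_one]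
    rcases mul_self_eq_one_iff.mp h3 with h4 | h4
    · exfalso
      have h5 := orderOf_dvd_of_pow_eq_one h4
      have hpos : 0 < 2 ^ (v - 1) * u := Nat.mul_pos (by positivity) hu.pos
      have h6 := Nat.le_of_dvd hpos h5
      rw [h, h2v] at h6
      have : 2 * 2 ^ (v - 1) * u = 2 * (2 ^ (v - 1) * u) := by ring
      omega
    · exact h4
  rw [← ZMod.natCast_eq_zero_iff]
  push_cast
  rw [← mul_assoc, pow_mul, h1, hc.neg_one_pow]
  ring

/-- **Degrees with at most two odd prime factors.** -/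
theorem good_two (hm : 0 < m) (hpm : p.Coprime m) (h4 : ¬ 4 ∣ m)
    (hcard : (m.primeFactors.erase 2).card ≤ 2)
    (heven : ∀ q : ℕ, q.Prime → q ∣ m → q ≠ 2 → Even (orderOf (p : ZMod q))) {n : ℕ}
    (hsq : Squarefree n) (hodd : Odd n) (h1n : 1 < n) (hnm : n ∣ m) :
    (∃ k : ℕ, n ∣ p ^ k + 1) ∨ OddCharacter p m n.primeFactors := by
  classical
  have hsub : n.primeFactors ⊆ m.primeFactors.erase 2 := by
    intro q hq
    rw [mem_erase]
    refine ⟨?_, Nat.primeFactors_mono hnm hm.ne' hq⟩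
    rintro rfl
    exact (Nat.not_even_iff_odd.mpr hodd) (even_iff_two_dvd.mpr (Nat.dvd_of_mem_primeFactors hq))
  have hprod : ∏ q ∈ n.primeFactors, q = n := Nat.prod_primeFactors_of_squarefree hsq
  have hfact : ∀ q ∈ n.primeFactors, q.Prime ∧ q ∣ m ∧ q ≠ 2 ∧ p.Coprime q := by
    intro q hq
    have h1 := mem_erase.mp (hsub hq)
    have h2 := Nat.dvd_of_mem_primeFactors h1.2
    exact ⟨Nat.prime_of_mem_primeFactors hq, h2, h1.1, Nat.Coprime.coprime_dvd_right h2 hpm⟩
  have hv1 : ∀ q ∈ n.primeFactors, ∀ v u : ℕ, Odd u → orderOf (p : ZMod q) = 2 ^ v * u →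
      1 ≤ v := by
    intro q hq v u hu h
    by_contra hlt
    have h0 : v = 0 := by omega
    obtain ⟨h1, h2, h3, _⟩ := hfact q hq
    have h5 := heven q h1 h2 h3
    rw [h, h0, pow_zero, one_mul] at h5
    exact (Nat.not_even_iff_odd.mpr hu) h5
  have hc : n.primeFactors.card ≤ 2 := (card_le_card hsub).trans hcard
  have hc0 : 0 < n.primeFactors.card := by
    rw [card_pos, Nat.nonempty_primeFactors]
    exact h1n
  have hc12 : n.primeFactors.card = 1 ∨ n.primeFactors.card = 2 := by omega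
  rcases hc12 with h | h
  · obtain ⟨q, hq⟩ := card_eq_one.mp h
    have hqn : q = n := by rw [hq, prod_singleton] at hprod; exact hprod
    have hqm : q ∈ n.primeFactors := by rw [hq]; exact mem_singleton_self q
    obtain ⟨v, u, hu, hord⟩ := exists_two_pow (hfact q hqm).1 (hfact q hqm).2.2.2
    left
    refine ⟨2 ^ (v - 1) * (u * 1), ?_⟩
    rw [← hqn]
    exact pow_half (hfact q hqm).1 hu (hv1 q hqm v u hu hord) hord odd_one
  · obtain ⟨q, r, hqr, hpf⟩ := card_eq_two.mp h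
    have hqm : q ∈ n.primeFactors := by rw [hpf]; exact mem_insert_self _ _
    have hrm : r ∈ n.primeFactors := by rw [hpf]; exact mem_insert_of_mem (mem_singleton_self _)
    have hn : q * r = n := by rw [hpf, prod_pair hqr] at hprod; exact hprod
    obtain ⟨v, u, hu, hord⟩ := exists_two_pow (hfact q hqm).1 (hfact q hqm).2.2.2
    obtain ⟨v', u', hu', hord'⟩ := exists_two_pow (hfact r hrm).1 (hfact r hrm).2.2.2
    have hvpos := hv1 q hqm v u hu hord
    have hvpos' := hv1 r hrm v' u' hu' hord'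
    have hothers : ∀ j : ℕ, j.Prime → j ∣ m → j ∉ n.primeFactors → (j = 2 → 4 ∣ m) → False := by
      intro j hj hjm hjn h24
      have hj2 : j ≠ 2 := fun h' => h4 (h24 h')
      have h5 : insert j n.primeFactors ⊆ m.primeFactors.erase 2 := by
        intro x hx
        rcases mem_insert.mp hx with h6 | h6
        · rw [h6, mem_erase]
          exact ⟨hj2, Nat.mem_primeFactors.mpr ⟨hj, hjm, hm.ne'⟩⟩
        · exact hsub h6
      have h7 := card_le_card h5
      rw [card_insert_of_notMem hjn] at h7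
      omega
    -- the case of different exponents
    have key : ∀ (q r v u v' u' : ℕ), q ≠ r → n.primeFactors = {q, r} → q ∈ n.primeFactors →
        r ∈ n.primeFactors → Odd u → Odd u' → orderOf (p : ZMod q) = 2 ^ v * u →
        orderOf (p : ZMod r) = 2 ^ v' * u' → 1 ≤ v → v < v' →
        (∃ k : ℕ, n ∣ p ^ k + 1) ∨ OddCharacter p m n.primeFactors := by
      intro q r v u v' u' hqr hpf hqm hrm hu hu' hord hord' hv hlt
      right
      obtain ⟨hq, _, hq2, hpq⟩ := hfact q hqm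
      obtain ⟨hr, _, hr2, hpr⟩ := hfact r hrm
      have hζ := Complex.isPrimitiveRoot_exp (2 ^ v) (by positivity)
      set ζ := Complex.exp (2 * Real.pi * Complex.I / ((2 ^ v : ℕ) : ℂ)) with hζdef
      have e1 : orderOf (ZMod.unitOfCoprime p hpq) = 2 ^ v * u := by
        rw [← orderOf_units]; exact hord
      have e2 : orderOf (ZMod.unitOfCoprime p hpr) = 2 ^ v' * u' := by
        rw [← orderOf_units]; exact hord'
      obtain ⟨χ1, h11, h12, _, h14⟩ := exists_chi hq hq2 (ZMod.unitOfCoprime p hpq) hv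
        (by rw [e1]; exact Dvd.intro _ rfl) hζ
      obtain ⟨χ2, h21, h22, h23, _⟩ := exists_chi hr hr2 (ZMod.unitOfCoprime p hpr) hv
        (by rw [e2]; exact (pow_dvd_pow 2 hlt.le).trans (Dvd.intro _ rfl)) hζ.inv
      have h14' : χ1 (-1) = -1 := by
        apply h14
        rw [e1, pow_succ]
        intro h5
        have h6 : 2 ∣ u := (Nat.mul_dvd_mul_iff_left (by positivity)).mp h5
        exact (Nat.not_even_iff_odd.mpr hu) (even_iff_two_dvd.mpr h6)
      have h23' : χ2 (-1) = 1 := by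
        apply h23
        rw [e2]
        exact (pow_dvd_pow 2 hlt).trans (Dvd.intro _ rfl)
      let χ : ∀ x : ℕ, DirichletCharacter ℂ x := fun x =>
        if h : x = q then h ▸ χ1 else if h : x = r then h ▸ χ2 else 1
      have hχq : χ q = χ1 := by simp [χ]
      have hχr : χ r = χ2 := by simp [χ, hqr.symm]
      refine ⟨χ, ?_, ?_, ?_, ?_⟩
      · intro x hx
        rw [hpf, mem_insert, mem_singleton] at hx
        rcases hx with rfl | rfl
        · rw [hχq]; exact h11
        · rw [hχr]; exact h21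
      · rw [hpf, prod_pair hqr, hχq, hχr, h14', h23']
        norm_num
      · rw [hpf, prod_pair hqr, hχq, hχr]
        have h5 : χ1 (p : ZMod q) = ζ := h12
        have h6 : χ2 (p : ZMod r) = ζ⁻¹ := h22
        rw [h5, h6]
        exact mul_inv_cancel₀ (hζ.ne_zero (by positivity))
      · intro j hj hjm hjn h24
        exact absurd (hothers j hj hjm hjn h24) id
    rcases lt_trichotomy v v' with hlt | heq | hgt
    · exact key q r v u v' u' hqr hpf hqm hrm hu hu' hord hord' hvpos hlt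
    · left
      subst heq
      refine ⟨2 ^ (v - 1) * (u * u'), ?_⟩
      rw [← hn]
      apply Nat.Coprime.mul_dvd_of_dvd_of_dvd
      · exact (Nat.coprime_primes (hfact q hqm).1 (hfact r hrm).1).mpr hqr
      · exact pow_half (hfact q hqm).1 hu hvpos hord hu'
      · rw [mul_comm u u']
        exact pow_half (hfact r hrm).1 hu' hvpos' hord' hu
    · exact key r q v' u' v u (Ne.symm hqr) (by rw [hpf, pair_comm]) hrm hqm hu' hu hord' hord
        hvpos' hgt

end Pool.Agent.L5helper47.TP
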