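import Pool.Agent.L5helper47.TP.Unif
import Pool.Agent.L5helper47.TP.Two

/-!
# The theorems for all Tate characters of a degree
-/

set_option linter.unusedSectionVars false
set_option autoImplicit false

namespace Pool.Agent.L5helper47.TP

open Finset Pool.Agent.H916R2 Pool.Agent.H916T Pool.Agent.H916U Pool.Agent.H916Z Pool.Agent.H916Q
  Pool.Agent.H916Y Pool.Agent.N992 Pool.Agent.N214.FT

variable {p m : ℕ}

/-- passing from the degree `k m` to the degree `m` -/
theorem descend (hm : 0 < m) (hpm : p.Coprime m) {k : ℕ} (hk : 0 < k) (hpk : p.Coprime k)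
    {B : ∀ M : ℕ, Multiset (ZMod M) → Prop} (hB : Stable p B)
    (H : ∀ s : Multiset (ZMod (k * m)), IsTate p (k * m) s → s ≠ 0 → ∃ N : ℕ, 0 < N ∧
      p.Coprime N ∧ ∀ M : ℕ, N * (k * m) = M → H916T.Generated M
        (fun t => SurfaceTate p M t ∨ (∃ q : ℕ, q.Prime ∧ q ∣ M ∧ Standard q M t) ∨ B M t)
        (s.map (iota N : ZMod (k * m) → ZMod M))) :
    AllGenerated p m B := by
  have hz : NeZero m := ⟨hm.ne'⟩
  have hkm : 0 < k * m := Nat.mul_pos hk hm
  have hzk : NeZero (k * m) := ⟨hkm.ne'⟩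
  have hpkm : p.Coprime (k * m) := Nat.Coprime.mul_right hpk hpm
  obtain ⟨N, hN, hpN, H2⟩ := uniform hm hpm (stable_base hB) (by
    intro s hs hne
    obtain ⟨N, hN, hpN, H1⟩ := H (s.map (iota k : ZMod m → ZMod (k * m)))
      (isTate_iota rfl hpkm hs) (fun h => hne (Multiset.map_eq_zero.mp h))
    refine ⟨N * k, Nat.mul_pos hN hk, Nat.Coprime.mul_right hpN hpk, ?_⟩
    intro M hM
    have hM1 : N * (k * m) = M := by rw [← hM]; ring
    have h3 := H1 M hM1
    rw [Multiset.map_map] at h3
    have h4 : ((iota N : ZMod (k * m) → ZMod M) ∘ (iota k : ZMod m → ZMod (k * m))) =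
        (iota (N * k) : ZMod m → ZMod M) := by
      funext a
      simp only [Function.comp_apply]
      rw [iota_comp hM1]
    rw [h4] at h3
    exact h3)
  exact ⟨N, hN, hpN, fun s hs hne => H2 s hs hne (N * m) rfl⟩

lemma stable_false : Stable p (fun _ _ => False) := fun _ _ _ _ _ _ _ _ h => h

lemma isTate_one_of_hodge [NeZero m] {s : Multiset (ZMod m)} (hs : IsHodge m s) : IsTate 1 m s :=
  tate_of_hodge (Nat.coprime_one_left m) hs

lemma stable_hodge : Stable p (fun M t => ModularHodge M t) := by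
  intro k M0 M h0 h1 hk _ t ht
  obtain ⟨hz, h2, L, r, h3, h4, h5⟩ := ht
  have h6 : ModularTate 1 M0 t := ⟨isTate_one_of_hodge h2, hz, L, r, h3, h4, h5⟩
  exact modularHodge_of_one (h6.lift hk (Nat.coprime_one_left M))

lemma stable_tate : Stable p (fun M t => ModularTate p M t) := by
  intro k M0 M h0 h1 hk hpM t ht
  exact ht.lift hk hpM

theorem main0 (hp : p.Prime) (hm : 0 < m) (hpm : p.Coprime m) {k : ℕ} (hk : 0 < k)
    (hpk : p.Coprime k) (h : Cond0 p (k * m)) : AllGenerated p m (fun _ _ => False) :=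
  descend hm hpm hk hpk stable_false fun _ hs hne =>
    criterion0 hp (Nat.mul_pos hk hm) (Nat.Coprime.mul_right hpk hpm) h hs hne

theorem main1 (hp : p.Prime) (hm : 0 < m) (hpm : p.Coprime m) {k : ℕ} (hk : 0 < k)
    (hpk : p.Coprime k) (h : Cond1 p (k * m)) : AllGenerated p m (fun M t => ModularHodge M t) :=
  descend hm hpm hk hpk stable_hodge fun _ hs hne =>
    criterion1 hp (Nat.mul_pos hk hm) (Nat.Coprime.mul_right hpk hpm) h hs hne

theorem main2 (hp : p.Prime) (hm : 0 < m) (hpm : p.Coprime m) {k : ℕ} (hk : 0 < k)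
    (hpk : p.Coprime k) (h : Cond2 p (k * m)) : AllGenerated p m (fun M t => ModularTate p M t) :=
  descend hm hpm hk hpk stable_tate fun _ hs hne =>
    criterion2 hp (Nat.mul_pos hk hm) (Nat.Coprime.mul_right hpk hpm) h hs hne

/-- the case of primes congruent to three modulo four -/
theorem cond2_three (hpm : p.Coprime m)
    (hm3 : ∀ q : ℕ, q.Prime → q ∣ m → q = 2 ∨ q % 4 = 3) : Cond2 p m :=
  fun _ hsq hodd h1n hnm => Or.inr (good_three hpm hm3 hsq hodd h1n hnm)

/-- the case of primes congruent to three modulo four, without bad triples -/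
theorem cond1_three (hm : 0 < m) (hpm : p.Coprime m)
    (hm3 : ∀ q : ℕ, q.Prime → q ∣ m → q = 2 ∨ q % 4 = 3) (h4 : p = 2 ∨ 4 ∣ m)
    (hbad : NoBadTriple p m) : Cond1 p m := by
  have hz : NeZero m := ⟨hm.ne'⟩
  intro n hsq hodd h1n hnm
  rcases good_three hpm hm3 hsq hodd h1n hnm with h | h | h
  · exact Or.inr (Or.inl h)
  · exact Or.inr (Or.inr h)
  · -- Jacobi symbol minus one
    by_cases heven : Even n.primeFactors.card
    · right; right
      refine ⟨h.1, Or.inl ?_⟩
      have hmem : ∀ q ∈ n.primeFactors, q.Prime ∧ q % 4 = 3 := fun q hq =>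
        ⟨Nat.prime_of_mem_primeFactors hq, h.1 q (Nat.prime_of_mem_primeFactors hq)
          (Nat.dvd_of_mem_primeFactors hq)⟩
      have h1 := (prod_mod_four hmem).2 heven
      rwa [Nat.prod_primeFactors_of_squarefree hsq] at h1
    · have hoddc := Nat.not_even_iff_odd.mp heven
      have hmem : ∀ q ∈ n.primeFactors, q.Prime ∧ q % 4 = 3 := fun q hq =>
        ⟨Nat.prime_of_mem_primeFactors hq, h.1 q (Nat.prime_of_mem_primeFactors hq)
          (Nat.dvd_of_mem_primeFactors hq)⟩
      have hsub : n.primeFactors ⊆ m.primeFactors := Nat.primeFactors_mono hnm hm.ne'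
      have hprod : ∏ q ∈ n.primeFactors, q = n := Nat.prod_primeFactors_of_squarefree hsq
      by_cases hD : Dead p n.primeFactors
      · left
        obtain ⟨j, hj⟩ := hD
        rw [hprod] at hj
        exact ⟨j, hj⟩
      · have hJ : jacobiSym p (∏ q ∈ n.primeFactors, q) = -1 := by rw [hprod]; exact h.2
        obtain ⟨hp2, hJ2⟩ := no_bad hpm hbad hsub hmem hoddc hJ hD
        have h4m : 4 ∣ m := h4.resolve_left hp2
        right; right
        refine ⟨h.1, Or.inr ⟨h4m, ?_⟩⟩
        rw [hprod] at hJ2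
        have hn4 : n % 4 = 3 := by
          have h1 := (prod_mod_four hmem).1 hoddc
          rwa [hprod] at h1
        by_contra h8
        have h7 : n % 8 = 7 := by omega
        have h3 : jacobiSym 2 n = 1 := by
          rw [jacobiSym.at_two hodd]
          have h5 : ((n : ℕ) : ZMod 8) = 7 := by
            rw [← Nat.mod_add_div n 8, h7]
            push_cast
            have h8 : (8 : ZMod 8) = 0 := by decide
            rw [h8, zero_mul, add_zero]
          rw [h5]
          decide
        rw [h3] at hJ2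
        norm_num at hJ2

/-- the general form, with the degree `4 m` if `p` is odd -/
theorem cond1_three' (hm : 0 < m) (hpm : p.Coprime m) (hp : p.Prime)
    (hm3 : ∀ q : ℕ, q.Prime → q ∣ m → q = 2 ∨ q % 4 = 3)
    (hbad : NoBadTriple p m) : ∃ k : ℕ, 0 < k ∧ p.Coprime k ∧ Cond1 p (k * m) := by
  by_cases hp2 : p = 2
  · exact ⟨1, one_pos, Nat.coprime_one_right p, by
      rw [one_mul]
      exact cond1_three hm hpm hm3 (Or.inl hp2) hbad⟩
  · have hp4 : p.Coprime 4 := by
      have h1 : p.Coprime 2 := (Nat.coprime_primes hp Nat.prime_two).mpr hp2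
      exact Nat.Coprime.mul_right h1 h1
    have hdvd : ∀ q : ℕ, q.Prime → q ∣ 4 * m → q ≠ 2 → q ∣ m := by
      intro q hq hqm hq2
      rcases (hq.dvd_mul).mp hqm with h | h
      · exfalso
        have h2 : q ∣ 2 ^ 2 := h
        exact hq2 ((Nat.prime_dvd_prime_iff_eq hq Nat.prime_two).mp (hq.dvd_of_dvd_pow h2))
      · exact h
    refine ⟨4, by norm_num, hp4, cond1_three (by omega) (Nat.Coprime.mul_right hp4 hpm) ?_
      (Or.inr (Dvd.intro _ rfl)) ?_⟩
    · intro q hq hqm
      by_cases hq2 : q = 2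
      · exact Or.inl hq2
      · exact hm3 q hq (hdvd q hq hqm hq2)
    · intro q r s hq hr hs' hqm hrm hsm hq2 hr2 hs2
      exact hbad q r s hq hr hs' (hdvd q hq hqm hq2) (hdvd r hr hrm hr2) (hdvd s hs' hsm hs2)
        hq2 hr2 hs2

end Pool.Agent.L5helper47.TP
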