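import Mathlib.NumberTheory.DirichletCharacter.Basic
import Mathlib.NumberTheory.LegendreSymbol.JacobiSymbol
import Pool.Agent.N214.FT.Defs

/-!
# The definitions: generation for all Tate characters of a degree, odd characters, types of divisors
-/

set_option autoImplicit false

namespace Pool.Agent.L5helper47.TP

open Finset Pool.Agent.H916T Pool.Agent.N992 Pool.Agent.N214.FT

/-- Every Tate character of degree `m` becomes, in one multiple `N m` of the degree, `N` prime to `p`,
a member of the closure of the characters of surfaces, the standard characters and the family `B`. -/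
def AllGenerated (p m : ℕ) (B : ∀ M : ℕ, Multiset (ZMod M) → Prop) : Prop :=
  ∃ N : ℕ, 0 < N ∧ p.Coprime N ∧ ∀ s : Multiset (ZMod m), IsTate p m s → s ≠ 0 →
    H916T.Generated (N * m)
      (fun t => SurfaceTate p (N * m) t ∨
        (∃ q : ℕ, q.Prime ∧ q ∣ N * m ∧ Standard q (N * m) t) ∨ B (N * m) t)
      (s.map fun a => ((N * a.val : ℕ) : ZMod (N * m)))

/-- A modular Hodge character: a Hodge character (of characteristic zero) which is a union of modular
spectra and of residues killed by 12. -/
def ModularHodge (m : ℕ) (s : Multiset (ZMod m)) : Prop := ∃ _ : NeZero m, ModularCharacter m s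

/-- If `q`, `r`, `s` are odd primes which divide `m`, `r ≠ s`, and `p` is a square modulo `r` and `s`
but not modulo `q`, then `p ≠ 2` and `q r s` is `3` modulo `8`. -/
def NoBadTriple (p m : ℕ) : Prop :=
  ∀ q r s : ℕ, q.Prime → r.Prime → s.Prime → q ∣ m → r ∣ m → s ∣ m → q ≠ 2 → r ≠ 2 → s ≠ 2 →
    r ≠ s → ¬ IsSquare (p : ZMod q) → IsSquare (p : ZMod r) → IsSquare (p : ZMod s) →
    p ≠ 2 ∧ q * r * s % 8 = 3

/-- The product over `q ∈ S` of Dirichlet characters `χ q` of even orders modulo the primes `q` is an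
odd character which is `1` at `p`, and at each prime `j` that divides `m` and is not in `S` it is `1`,
or `-1` for `j` congruent to three modulo four; the prime two is disregarded if four does not divide
`m`. -/
def OddCharacter (p m : ℕ) (S : Finset ℕ) : Prop :=
  ∃ χ : ∀ q : ℕ, DirichletCharacter ℂ q, (∀ q ∈ S, Even (orderOf (χ q))) ∧
    ∏ q ∈ S, χ q (-1) = -1 ∧ ∏ q ∈ S, χ q p = 1 ∧
    ∀ j : ℕ, j.Prime → j ∣ m → j ∉ S → (j = 2 → 4 ∣ m) →
      ∏ q ∈ S, χ q j = 1 ∨ (j % 4 = 3 ∧ ∏ q ∈ S, χ q j = -1)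

/-- All prime divisors of `n` are congruent to three modulo four, and `n` is `1` modulo four, or
`4 ∣ m` and `n` is `3` modulo `8`. -/
def HodgeType (m n : ℕ) : Prop :=
  (∀ q : ℕ, q.Prime → q ∣ n → q % 4 = 3) ∧ (n % 4 = 1 ∨ (4 ∣ m ∧ n % 8 = 3))

/-- All prime divisors of `n` are congruent to three modulo four, and `p` has Jacobi symbol `-1`
modulo `n`. -/
def TateType (p n : ℕ) : Prop :=
  (∀ q : ℕ, q.Prime → q ∣ n → q % 4 = 3) ∧ jacobiSym p n = -1

/-- Each squarefree odd divisor `n > 1` of `M` divides some `p ^ k + 1` or has an odd character. -/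
def Cond0 (p M : ℕ) : Prop := ∀ n : ℕ, Squarefree n → Odd n → 1 < n → n ∣ M →
  (∃ k : ℕ, n ∣ p ^ k + 1) ∨ OddCharacter p M n.primeFactors

/-- Each squarefree odd divisor `n > 1` of `M` divides some `p ^ k + 1`, or has an odd character, or
is of Hodge type. -/
def Cond1 (p M : ℕ) : Prop := ∀ n : ℕ, Squarefree n → Odd n → 1 < n → n ∣ M →
  (∃ k : ℕ, n ∣ p ^ k + 1) ∨ OddCharacter p M n.primeFactors ∨ HodgeType M n

/-- Each squarefree odd divisor `n > 1` of `M` divides some `p ^ k + 1`, or has an odd character, or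
is of Hodge type or of Tate type. -/
def Cond2 (p M : ℕ) : Prop := ∀ n : ℕ, Squarefree n → Odd n → 1 < n → n ∣ M →
  (∃ k : ℕ, n ∣ p ^ k + 1) ∨ OddCharacter p M n.primeFactors ∨ HodgeType M n ∨ TateType p n

end Pool.Agent.L5helper47.TP
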