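import Pool.Agent.N214.FT.Even
import Pool.Agent.H916Y.Thirteen
import Pool.Agent.L5helper47.TP.Defs

/-!
# Parities of supports from odd characters
-/

set_option linter.unusedSectionVars false
set_option autoImplicit false

namespace Pool.Agent.L5helper47.TP

open Finset Pool.Agent.H916R2 Pool.Agent.H916T Pool.Agent.H916U Pool.Agent.H916Z Pool.Agent.H916Q
  Pool.Agent.H916Y Pool.Agent.N214.FT

open scoped Classical in
/-- the sign of a nonzero complex number -/
noncomputable def tsg (z : ℂ) : ℤ := if 0 < z.im ∨ (z.im = 0 ∧ 0 < z.re) then 1 else -1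

lemma tsg_par (z : ℂ) : ¬ (2 : ℤ) ∣ tsg z := by
  unfold tsg
  split_ifs <;> decide

lemma tsg_neg {z : ℂ} (hz : z ≠ 0) : tsg (-z) = - tsg z := by
  unfold tsg
  rcases lt_trichotomy z.im 0 with h | h | h
  · rw [if_pos (Or.inl (by simpa using h)), if_neg]
    · norm_num
    · rintro (h' | ⟨h', _⟩) <;> linarith
  · have hre : z.re ≠ 0 := fun h' => hz (Complex.ext h' h)
    rcases lt_or_gt_of_ne hre with h' | h'
    · rw [if_pos (Or.inr ⟨by simp [h], by simpa using h'⟩), if_neg]
      · norm_num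
      · rintro (h1 | ⟨_, h1⟩) <;> linarith
    · rw [if_neg, if_pos (Or.inr ⟨h, h'⟩)]
      rintro (h1 | ⟨_, h1⟩)
      · simp [h] at h1
      · simp at h1; linarith
  · rw [if_neg, if_pos (Or.inl h)]
    rintro (h1 | ⟨h1, _⟩) <;> simp at h1 <;> linarith

variable {m : ℕ} (χ : ∀ q : ℕ, DirichletCharacter ℂ q)

/-- the product of the characters -/
noncomputable def chp (Q0 : Finset (PF m)) (x : ∀ i, GG m i) : ℂ :=
  ∏ i ∈ Q0, χ (i : ℕ) ((x i : GG m i) : ZMod (i : ℕ))

lemma chp_mul (Q0 : Finset (PF m)) (x y : ∀ i, GG m i) :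
    chp χ Q0 (x * y) = chp χ Q0 x * chp χ Q0 y := by
  unfold chp
  rw [← prod_mul_distrib]
  refine prod_congr rfl fun i _ => ?_
  rw [Pi.mul_apply, Units.val_mul, map_mul]

lemma chp_one (Q0 : Finset (PF m)) : chp χ Q0 1 = 1 := by
  unfold chp
  apply prod_eq_one
  intro i _
  simp

lemma chp_inv (Q0 : Finset (PF m)) (x : ∀ i, GG m i) :
    chp χ Q0 x⁻¹ = (chp χ Q0 x)⁻¹ := by
  apply eq_inv_of_mul_eq_one_left
  rw [← chp_mul, inv_mul_cancel, chp_one]

lemma chp_ne (Q0 : Finset (PF m)) (x : ∀ i, GG m i) : chp χ Q0 x ≠ 0 := by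
  intro h
  have h1 : chp χ Q0 x⁻¹ * chp χ Q0 x = 1 := by rw [← chp_mul, inv_mul_cancel, chp_one]
  rw [h, mul_zero] at h1
  exact zero_ne_one h1

lemma chp_single (Q0 : Finset (PF m)) {k : PF m} (hk : k ∉ Q0) (y : GG m k) :
    chp χ Q0 (Pi.mulSingle k y) = 1 := by
  unfold chp
  apply prod_eq_one
  intro i hi
  have : i ≠ k := fun h => hk (h ▸ hi)
  rw [Pi.mulSingle_eq_of_ne this]
  simp

lemma chp_single_mem (Q0 : Finset (PF m)) {k : PF m} (hk : k ∈ Q0) (y : GG m k) :
    chp χ Q0 (Pi.mulSingle k y) = χ (k : ℕ) (y : ZMod (k : ℕ)) := by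
  classical
  unfold chp
  rw [← mul_prod_erase Q0 _ hk, Pi.mulSingle_eq_same, prod_eq_one, mul_one]
  intro j hj
  rw [Pi.mulSingle_eq_of_ne (ne_of_mem_erase hj)]
  simp

lemma prod_FS' {S : Finset ℕ} (hS : S ⊆ m.primeFactors) (F : ℕ → ℂ) :
    ∏ i ∈ FS m S, F (i : ℕ) = ∏ q ∈ S, F q := by
  refine Finset.prod_bij (fun i _ => (i : ℕ)) ?_ ?_ ?_ ?_
  · intro i hi; exact mem_FS.mp hi
  · intro i _ j _ h; exact Subtype.ext h
  · intro q hq; exact ⟨⟨q, hS hq⟩, mem_FS.mpr hq, rfl⟩
  · intro i _; rfl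

lemma chp_sg {S : Finset ℕ} (hS : S ⊆ m.primeFactors) :
    chp χ (FS m S) (sg m) = ∏ q ∈ S, χ q (-1) := by
  rw [← prod_FS' hS fun q => χ q (-1)]
  unfold chp
  refine prod_congr rfl fun i _ => ?_
  unfold sg
  simp

lemma chp_vec {S : Finset ℕ} (hS : S ⊆ m.primeFactors) {n : ℕ} (hn : ∀ q ∈ S, ¬ q ∣ n) :
    chp χ (FS m S) (vec m n) = ∏ q ∈ S, χ q n := by
  rw [← prod_FS' hS fun q => χ q n]
  unfold chp
  refine prod_congr rfl fun i hi => ?_
  rw [vec_val (hn i (mem_FS.mp hi))]

/-- a character of even order has the value minus one -/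
lemma exists_neg_one {q : ℕ} (hq : q.Prime) (ψ : DirichletCharacter ℂ q) (h : Even (orderOf ψ)) :
    ∃ y : (ZMod q)ˣ, ψ (y : ZMod q) = -1 := by
  have : Fact q.Prime := ⟨hq⟩
  obtain ⟨k, hk⟩ := h
  have hpos : 0 < orderOf ψ := by
    rw [orderOf_pos_iff]
    exact isOfFinOrder_of_finite ψ
  have hk1 : ψ ^ k ≠ 1 := by
    intro h1
    have h2 := orderOf_dvd_of_pow_eq_one h1
    have h3 := Nat.le_of_dvd (by omega) h2
    omega
  have hk2 : (ψ ^ k) ^ 2 = 1 := by
    rw [← pow_mul, show k * 2 = orderOf ψ by omega, pow_orderOf_eq_one]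
  obtain ⟨a, ha⟩ := MulChar.ne_one_iff.mp hk1
  refine ⟨a ^ k, ?_⟩
  have h1 : ψ ((a ^ k : (ZMod q)ˣ) : ZMod q) = (ψ ^ k) (a : ZMod q) := by
    rw [Units.val_pow_eq_pow_val, map_pow, MulChar.pow_apply_coe]
  have h2 : ((ψ ^ k) (a : ZMod q)) ^ 2 = 1 := by
    rw [← MulChar.pow_apply_coe, hk2, MulChar.one_apply_coe]
  rw [h1]
  rw [sq] at h2
  rcases mul_self_eq_one_iff.mp h2 with h3 | h3
  · exact absurd h3 ha
  · exact h3

open scoped Classical in
/-- **Evenness of the number of entries whose order has support `S`** from an odd character, if this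
holds for the larger supports. -/
theorem even_chr0 [NeZero m] {p : ℕ} (hp : p.Coprime m) {s : Multiset (ZMod m)} (hs : Rel0 p s)
    {S : Finset ℕ} (hS : S ⊆ m.primeFactors) (h2 : 2 ∉ S) (hne : S.Nonempty)
    {χ : ∀ q : ℕ, DirichletCharacter ℂ q} (hev : ∀ q ∈ S, Even (orderOf (χ q)))
    (hneg : ∏ q ∈ S, χ q (-1) = -1) (hp1 : ∏ q ∈ S, χ q p = 1)
    (hj : ∀ j : ℕ, j.Prime → j ∣ m → j ∉ S →
      ∏ q ∈ S, χ q j = 1 ∨ (j % 4 = 3 ∧ ∏ q ∈ S, χ q j = -1))
    (hbig : ∀ V : Finset ℕ, S ⊂ V → 2 ∉ V → Even (s.countP (Supp V))) :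
    Even (s.countP (Supp S)) := by
  have hpS : ∀ q ∈ S, ¬ q ∣ p := by
    intro q hq h
    exact not_dvd_of_coprime (Nat.prime_of_mem_primeFactors (hS hq)) hp
      (Nat.dvd_of_mem_primeFactors (hS hq)) h
  set ω : (∀ i, GG m i) → ℤ := fun x => tsg (chp χ (FS m S) x) with hω
  set R : Finset (PF m) := univ.filter
    (fun j : PF m => (j : ℕ) ∉ S ∧ ∏ q ∈ S, χ q ((j : ℕ) : ZMod q) = -1) with hR
  have hmemR : ∀ j, j ∈ R ↔ ((j : ℕ) ∉ S ∧ ∏ q ∈ S, χ q ((j : ℕ) : ZMod q) = -1) := by
    intro j; rw [hR]; simp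
  have hneg1 : (1 : ℂ) ≠ -1 := by norm_num
  have hj' : ∀ j : PF m, (j : ℕ) ∉ S → ∏ q ∈ S, χ q ((j : ℕ) : ZMod q) = 1 ∨
      ((j : ℕ) % 4 = 3 ∧ ∏ q ∈ S, χ q ((j : ℕ) : ZMod q) = -1) := fun j hjS =>
    hj j (Fact.out : (j : ℕ).Prime) (Nat.dvd_of_mem_primeFactors j.2) hjS
  have hR3 : ∀ j ∈ R, (j : ℕ) % 4 = 3 := by
    intro j hjR
    obtain ⟨h1, h3⟩ := (hmemR j).mp hjR
    rcases hj' j h1 with h | h
    · rw [h] at h3
      exact absurd h3 hneg1
    · exact h.1
  have hnot2 : ∀ j ∈ R, (j : ℕ) ≠ 2 := by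
    intro j hjR h
    have := hR3 j hjR
    omega
  have htt : ∀ j, j ∉ FS m S → chp χ (FS m S) (tt m j) =
      (∏ q ∈ S, χ q ((j : ℕ) : ZMod q))⁻¹ := by
    intro j hjS
    unfold tt
    rw [chp_inv, chp_vec χ hS]
    intro q hq h
    have hqp : q.Prime := Nat.prime_of_mem_primeFactors (hS hq)
    have hjp : (j : ℕ).Prime := Fact.out
    have h3 : q = j := (Nat.prime_dvd_prime_iff_eq hqp hjp).mp h
    exact hjS (mem_FS.mpr (h3 ▸ hq))
  have hG : Gen' m (FS m S) R ω := by
    refine ⟨hR3, ?_, ?_, ?_, ?_, ?_, ?_, ?_, fun x => tsg_par _⟩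
    · intro j hj h
      exact ((hmemR j).mp hj).1 (mem_FS.mp h)
    · obtain ⟨q, hq⟩ := hne
      exact ⟨⟨q, hS hq⟩, mem_FS.mpr hq⟩
    · intro k hk y x
      simp only [hω]
      rw [chp_mul, chp_single χ _ hk, one_mul]
    · intro x
      simp only [hω]
      rw [chp_mul, chp_sg χ hS, hneg, neg_one_mul, tsg_neg (chp_ne χ _ _)]
    · intro i hi x
      obtain ⟨y0, hy0⟩ := exists_neg_one (Fact.out : (i : ℕ).Prime) (χ (i : ℕ))
        (hev i (mem_FS.mp hi))
      have h1 : ∀ y : GG m i, ω (Pi.mulSingle i (y * y0) * x) = - ω (Pi.mulSingle i y * x) := by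
        intro y
        simp only [hω]
        rw [chp_mul, chp_mul, chp_single_mem χ _ hi, chp_single_mem χ _ hi, Units.val_mul, map_mul,
          hy0, mul_neg_one, neg_mul, tsg_neg]
        rw [← chp_single_mem χ _ hi, ← chp_mul]
        exact chp_ne χ _ _
      unfold NN
      have h2 : ∑ y : GG m i, ω (Pi.mulSingle i y * x) =
          ∑ y : GG m i, ω (Pi.mulSingle i (y * y0) * x) :=
        (Fintype.sum_equiv (Equiv.mulRight y0) _ _ (fun y => rfl)).symm
      rw [sum_congr rfl fun y _ => h1 y, sum_neg_distrib] at h2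
      linarith
    · intro j hjS hjR x
      have h4 : (j : ℕ) ∉ S := fun h => hjS (mem_FS.mpr h)
      have h5 : ∏ q ∈ S, χ q ((j : ℕ) : ZMod q) = 1 := by
        rcases hj' j h4 with h | h
        · exact h
        · exact absurd ((hmemR j).mpr ⟨h4, h.2⟩) hjR
      simp only [hω]
      rw [chp_mul, htt j hjS, h5, inv_one, one_mul]
    · intro j hjR x
      have hjS : j ∉ FS m S := fun h => ((hmemR j).mp hjR).1 (mem_FS.mp h)
      simp only [hω]
      rw [chp_mul, htt j hjS, ((hmemR j).mp hjR).2, inv_neg, inv_one, neg_one_mul,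
        tsg_neg (chp_ne χ _ _)]
  have h1 := even_count' hp hs hG (fun i hi h => h2 (h ▸ mem_FS.mp hi)) (by
    intro x
    simp only [hω]
    rw [chp_mul, chp_vec χ hS hpS, hp1, one_mul])
  -- split the count
  set A : ZMod m → Prop := fun a => FS m S ⊆ H916Q.TT m (addOrderOf a) ∧
      H916Q.TT m (addOrderOf a) ⊆ FS m S ∪ R with hA
  have hAS : ∀ a, A a → S ⊆ (addOrderOf a).primeFactors ∧ 2 ∉ (addOrderOf a).primeFactors := by
    intro a ha
    constructor
    · intro q hq
      have h3 : (⟨q, hS hq⟩ : PF m) ∈ H916Q.TT m (addOrderOf a) := ha.1 (mem_FS.mpr hq)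
      rw [mem_TT] at h3
      exact Nat.mem_primeFactors.mpr ⟨Nat.prime_of_mem_primeFactors (hS hq), h3,
        (addOrderOf_pos a).ne'⟩
    · intro h
      have h3 := (Nat.mem_primeFactors.mp h).2.1
      have h2m : 2 ∣ m := h3.trans (addOrderOf_dvd_level a)
      have h4 : (⟨2, Nat.mem_primeFactors.mpr ⟨Nat.prime_two, h2m, NeZero.ne m⟩⟩ : PF m) ∈
          H916Q.TT m (addOrderOf a) := mem_TT.mpr h3
      rcases mem_union.mp (ha.2 h4) with h5 | h5
      · exact h2 (mem_FS.mp h5)
      · exact hnot2 _ h5 rfl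
  have hSA : ∀ a, Supp S a → A a := by
    intro a ha
    have h3 := (TT_eq_iff hS a).mpr ha
    have e1 : univ.filter (fun i : PF m => (i : ℕ) ∈ S) = FS m S := rfl
    rw [e1] at h3
    rw [hA]
    simp only [h3]
    exact ⟨Subset.refl _, subset_union_left⟩
  have hsplit : s.countP A = s.countP (Supp S) + s.countP (fun a => A a ∧ ¬ Supp S a) := by
    have h3 : ∀ s : Multiset (ZMod m), s.countP A =
        s.countP (Supp S) + s.countP (fun a => A a ∧ ¬ Supp S a) := by
      intro s
      induction s using Multiset.induction_on with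
      | empty => simp
      | cons a s ih =>
        rw [Multiset.countP_cons, Multiset.countP_cons, Multiset.countP_cons, ih]
        by_cases h4 : Supp S a
        · rw [if_pos h4, if_pos (hSA a h4), if_neg (fun h => h.2 h4)]; ring
        · by_cases h5 : A a
          · rw [if_neg h4, if_pos h5, if_pos ⟨h5, h4⟩]; ring
          · rw [if_neg h4, if_neg h5, if_neg (fun h => h5 h.1)]; ring
    exact h3 s
  have hrest : Even (s.countP (fun a => A a ∧ ¬ Supp S a)) := by
    rw [Multiset.countP_eq_card_filter]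
    set s' := s.filter (fun a => A a ∧ ¬ Supp S a) with hs'
    have h3 : Even (s'.countP (fun _ => True)) := by
      refine even_of_key (fun b : ZMod m => (addOrderOf b).primeFactors) _ _ _ rfl ?_
        (fun _ _ _ _ _ => Iff.rfl)
      intro K
      rw [hs', Multiset.countP_filter]
      by_cases hK : (S ⊂ K ∧ 2 ∉ K) ∧ ∃ a, Supp K a ∧ A a
      · obtain ⟨hK, b, hbK, hbA⟩ := hK
        have h4 : s.countP (fun a => (addOrderOf a).primeFactors = K ∧ (A a ∧ ¬ Supp S a)) =
            s.countP (Supp K) := by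
          apply Multiset.countP_congr rfl
          intro a _
          simp only [eq_iff_iff]
          constructor
          · exact fun h => h.1
          · intro h
            refine ⟨h, ?_, ?_⟩
            · -- the condition only depends on the support
              have hTT : H916Q.TT m (addOrderOf a) = H916Q.TT m (addOrderOf b) := by
                have hpf : (addOrderOf a).primeFactors = (addOrderOf b).primeFactors := by
                  unfold Supp at h hbK; rw [h, hbK]
                ext i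
                rw [mem_TT, mem_TT]
                have hip : (i : ℕ).Prime := Fact.out
                constructor
                · intro h5
                  have h6 := Nat.mem_primeFactors.mpr ⟨hip, h5, (addOrderOf_pos a).ne'⟩
                  rw [hpf] at h6
                  exact Nat.dvd_of_mem_primeFactors h6
                · intro h5
                  have h6 := Nat.mem_primeFactors.mpr ⟨hip, h5, (addOrderOf_pos b).ne'⟩
                  rw [← hpf] at h6
                  exact Nat.dvd_of_mem_primeFactors h6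
              change FS m S ⊆ H916Q.TT m (addOrderOf a) ∧
                H916Q.TT m (addOrderOf a) ⊆ FS m S ∪ R
              rw [hTT]
              exact hbA
            · intro h5
              unfold Supp at h h5
              rw [h5] at h
              exact hK.1.ne h
        rw [h4]
        exact hbig K hK.1 hK.2
      · have h4 : s.countP (fun a => (addOrderOf a).primeFactors = K ∧ (A a ∧ ¬ Supp S a)) = 0 := by
          rw [Multiset.countP_eq_zero]
          rintro a _ ⟨h5, h6, h7⟩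
          apply hK
          have h8 := hAS a h6
          rw [h5] at h8
          refine ⟨⟨lt_of_le_of_ne h8.1 ?_, h8.2⟩, a, h5, h6⟩
          intro h9
          apply h7
          unfold Supp
          rw [h5, h9]
        rw [h4]; exact Even.zero
    rwa [Multiset.countP_True] at h3
  rw [hsplit] at h1
  exact (Nat.even_add.mp h1).mpr hrest

/-- **Evenness from an odd character, at every level.** -/
theorem even_chr {p : ℕ} (hm : 0 < m) (hp : p.Coprime m) {s : Multiset (ZMod m)} (hs : Rel0 p s)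
    {S : Finset ℕ} (hS : S ⊆ m.primeFactors) (h2 : 2 ∉ S) (hne : S.Nonempty)
    (hχ : OddCharacter p m S)
    (hbig : ∀ V : Finset ℕ, S ⊂ V → 2 ∉ V → Even (s.countP (Supp V))) :
    Even (s.countP (Supp S)) := by
  have hz : NeZero m := ⟨hm.ne'⟩
  obtain ⟨χ, h1, h3, h4, h5⟩ := hχ
  by_cases h4m : 4 ∣ m
  · exact even_chr0 hp hs hS h2 hne h1 h3 h4 (fun j hj hjm hjS => h5 j hj hjm hjS fun _ => h4m) hbig
  · obtain ⟨k, n, hn, hk, hkn, hn2⟩ := exists_odd_level hm h4m
    obtain ⟨x', hx', hX⟩ := oddize_rel hn hk hkn hn2 hp hs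
    have hnm : n ∣ m := Dvd.intro_left k hkn
    have hzn : NeZero n := ⟨hn.ne'⟩
    rw [← hX S h2]
    refine even_chr0 (Nat.Coprime.coprime_dvd_right hnm hp) hx' ?_ h2 hne h1 h3 h4 ?_ ?_
    · intro q hq
      have hqp := Nat.prime_of_mem_primeFactors (hS hq)
      refine Nat.mem_primeFactors.mpr ⟨hqp, ?_, hn.ne'⟩
      have h6 := Nat.dvd_of_mem_primeFactors (hS hq)
      rw [← hkn] at h6
      rcases hqp.dvd_mul.mp h6 with h | h
      · exfalso
        rcases hk with rfl | rfl
        · exact hqp.one_lt.ne' (Nat.dvd_one.mp h)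
        · exact h2 (((Nat.prime_dvd_prime_iff_eq hqp Nat.prime_two).mp h) ▸ hq)
      · exact h
    · intro j hj hjn hjS
      refine h5 j hj (hjn.trans hnm) hjS ?_
      rintro rfl
      exact absurd hjn hn2
    · intro V hV h2V
      rw [hX V h2V]
      exact hbig V hV h2V

end Pool.Agent.L5helper47.TP
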