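import Pool.Agent.N214.FT.Main

/-!
# Elimination of the parities
-/

set_option linter.unusedSectionVars false
set_option autoImplicit false

namespace Pool.Agent.L5helper47.TP

open Finset Pool.Agent.H916R2 Pool.Agent.H916T Pool.Agent.H916U Pool.Agent.H916Z Pool.Agent.H916Q
  Pool.Agent.H916Y Pool.Agent.N992 Pool.Agent.N214.FT

variable {p m : ℕ}

open scoped Classical in
theorem elim [NeZero m] (hpm : p.Coprime m) (KK : Multiset (ZMod m) → Prop)
    (hKK : ∀ x, KK x → IsTate p m x) {s : Multiset (ZMod m)} (hs : IsTate p m s)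
    (hdich : ∀ S : Finset ℕ, S ⊆ m.primeFactors → S.Nonempty → 2 ∉ S → ¬ Dead p S →
      (∃ y : Multiset (ZMod m), KK y ∧ Odd (y.countP (Supp S)) ∧
        ∀ V : Finset ℕ, V.Nonempty → 2 ∉ V → ¬ V ⊆ S → Even (y.countP (Supp V))) ∨
      ∀ s : Multiset (ZMod m), Rel0 p s →
        (∀ V : Finset ℕ, S ⊂ V → 2 ∉ V → Even (s.countP (Supp V))) → Even (s.countP (Supp S)))
    (c : ℕ) :
    ∃ l : Multiset (Multiset (ZMod m)), (∀ x ∈ l, KK x) ∧
      ∀ S : Finset ℕ, S.Nonempty → 2 ∉ S → ¬ Dead p S → m.primeFactors.card + 1 ≤ S.card + c →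
        Even ((s + l.sum).countP (Supp S)) := by
  induction c with
  | zero =>
    refine ⟨0, by simp, ?_⟩
    intro S _ _ _ hc
    have h1 : (s + (0 : Multiset (Multiset (ZMod m))).sum).countP (Supp S) = 0 := by
      rw [Multiset.countP_eq_zero]
      intro a _ ha
      have h2 := Finset.card_le_card (supp_sub ha)
      omega
    rw [h1]; exact Even.zero
  | succ c ih =>
    obtain ⟨l, hl, hl2⟩ := ih
    have hT : IsTate p m (s + l.sum) :=
      isTate_add hpm hs (isTate_msum hpm l fun x hx => hKK x (hl x hx))
    have hrel : Rel0 p (s + l.sum) := fun t => hT.W_sum hpm t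
    set B : Finset (Finset ℕ) := m.primeFactors.powerset.filter (fun S => S.Nonempty ∧ 2 ∉ S ∧
      ¬ Dead p S ∧ m.primeFactors.card + 1 = S.card + (c + 1) ∧
      ¬ Even ((s + l.sum).countP (Supp S))) with hB
    have hkill : ∀ S ∈ B, ∃ y : Multiset (ZMod m), KK y ∧ Odd (y.countP (Supp S)) ∧
        ∀ V : Finset ℕ, V.Nonempty → 2 ∉ V → ¬ V ⊆ S → Even (y.countP (Supp V)) := by
      intro S hS
      rw [hB, mem_filter, mem_powerset] at hS
      obtain ⟨hSm, hne, h2, hD, hc, hodd⟩ := hS
      rcases hdich S hSm hne h2 hD with h | h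
      · exact h
      · exfalso
        apply hodd
        apply h _ hrel
        intro V hV hV2
        have h5 := Finset.card_lt_card hV
        exact hl2 V (hne.mono hV.1) hV2 (fun h6 => hD (dead_mono hV.1 h6)) (by omega)
    choose! M hM1 hM2 hM3 using hkill
    refine ⟨l + B.val.map M, ?_, ?_⟩
    · intro x hx
      rcases Multiset.mem_add.mp hx with hx | hx
      · exact hl x hx
      · obtain ⟨S, hS, rfl⟩ := Multiset.mem_map.mp hx
        exact hM1 S hS
    · intro V hVne hV2 hVD hc
      rw [Multiset.sum_add, ← add_assoc, even_iff_par, Multiset.map_add, Multiset.sum_add,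
        par_msum, Multiset.map_map]
      have h5 : (B.val.map ((fun x : Multiset (ZMod m) => (x.map (par V)).sum) ∘ M)).sum =
          ∑ S ∈ B, ((M S).map (par V)).sum := rfl
      rw [h5]
      by_cases hVB : V ∈ B
      · have h6 : ∑ S ∈ B, ((M S).map (par V)).sum = ((M V).map (par V)).sum := by
          apply Finset.sum_eq_single_of_mem V hVB
          intro S hS hSV
          rw [← even_iff_par]
          apply hM3 S hS V hVne hV2
          intro hsub
          apply hSV
          have hS' := (mem_filter.mp hS).2.2.2.2.1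
          have hV' := (mem_filter.mp hVB).2.2.2.2.1
          exact (Finset.eq_of_subset_of_card_le hsub (by omega)).symm
        rw [h6, (odd_iff_par V (M V)).mp (hM2 V hVB)]
        have h7 := (mem_filter.mp hVB).2.2.2.2.2
        rw [Nat.not_even_iff_odd, odd_iff_par] at h7
        rw [h7]; decide
      · have h6 : ∑ S ∈ B, ((M S).map (par V)).sum = 0 := by
          apply Finset.sum_eq_zero
          intro S hS
          rw [← even_iff_par]
          apply hM3 S hS V hVne hV2
          intro hsub
          have hS' := (mem_filter.mp hS).2.2.2.2.1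
          have h8 : V = S := Finset.eq_of_subset_of_card_le hsub (by omega)
          exact hVB (h8 ▸ hS)
        rw [h6, add_zero, ← even_iff_par]
        by_cases hVc : m.primeFactors.card + 1 ≤ V.card + c
        · exact hl2 V hVne hV2 hVD hVc
        · by_contra hodd
          have hVm : V ⊆ m.primeFactors := by
            have h9 : 0 < (s + l.sum).countP (Supp V) := by
              rw [Nat.not_even_iff_odd] at hodd
              exact hodd.pos
            obtain ⟨a, _, ha⟩ := Multiset.countP_pos.mp h9
            exact supp_sub ha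
          apply hVB
          rw [hB, mem_filter, mem_powerset]
          exact ⟨hVm, hVne, hV2, hVD, by omega, hodd⟩

end Pool.Agent.L5helper47.TP
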