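import Pool.Agent.N214.FT.Kil
import Pool.Agent.L5helper47.TP.Defs

/-!
# Triples of primes
-/

set_option autoImplicit false

namespace Pool.Agent.L5helper47.TP

open Finset Pool.Agent.H916Y Pool.Agent.N214.FT

lemma jac_eq {p q : ℕ} (hq : q.Prime) (hpq : p.Coprime q) :
    (IsSquare (p : ZMod q) ∧ jacobiSym p q = 1) ∨ (¬ IsSquare (p : ZMod q) ∧ jacobiSym p q = -1) := by
  have : Fact q.Prime := ⟨hq⟩
  have h0 : (((p : ℤ)) : ZMod q) ≠ 0 := by
    intro h
    have h1 : ((p : ℕ) : ZMod q) = 0 := by exact_mod_cast h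
    rw [ZMod.natCast_eq_zero_iff] at h1
    have h2 := Nat.eq_one_of_dvd_coprimes hpq h1 dvd_rfl
    exact hq.one_lt.ne' h2
  rw [← jacobiSym.legendreSym.to_jacobiSym]
  by_cases h : IsSquare (p : ZMod q)
  · left
    refine ⟨h, ?_⟩
    rw [legendreSym.eq_one_iff _ h0]
    exact_mod_cast h
  · right
    refine ⟨h, ?_⟩
    rw [legendreSym.eq_neg_one_iff]
    exact_mod_cast h

/-- `p` is a nonsquare modulo all the primes of `S`: then `S` is dead -/
lemma dead_all {p : ℕ} {S : Finset ℕ} (hS : ∀ q ∈ S, q.Prime ∧ q % 4 = 3)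
    (hJ : ∀ q ∈ S, jacobiSym p q = -1) : Dead p S := by
  classical
  refine ⟨∏ q ∈ S, q / 2, ?_⟩
  apply Finset.prod_primes_dvd
  · intro q hq
    exact (hS q hq).1.prime
  · intro q hq
    have : Fact q.Prime := ⟨(hS q hq).1⟩
    have h1 : ((p : ℤ) : ZMod q) ^ (q / 2) = -1 := by
      rw [← legendreSym.eq_pow, jacobiSym.legendreSym.to_jacobiSym, hJ q hq]
      push_cast
      rfl
    rw [← ZMod.natCast_eq_zero_iff]
    push_cast
    have h2 : ∏ q ∈ S, q / 2 = (q / 2) * ∏ q' ∈ S.erase q, q' / 2 := (mul_prod_erase S _ hq).symm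
    have h3 : Odd (∏ q' ∈ S.erase q, q' / 2) := by
      apply Finset.prod_induction _ Odd (fun _ _ => Odd.mul) odd_one
      intro q' hq'
      have := (hS q' (mem_of_mem_erase hq')).2
      rw [Nat.odd_iff]
      omega
    have h4 : (p : ZMod q) ^ (q / 2) = -1 := by exact_mod_cast h1
    rw [h2, pow_mul, h4, h3.neg_one_pow]
    ring

lemma prod_pm {S : Finset ℕ} {u : ℕ → ℤ} (hu : ∀ q ∈ S, u q = 1 ∨ u q = -1) :
    ∏ q ∈ S, u q = (-1) ^ (S.filter fun q => u q = -1).card := by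
  rw [← prod_filter_mul_prod_filter_not S (fun q => u q = -1)]
  have h1 : ∏ q ∈ S.filter (fun q => ¬ u q = -1), u q = 1 := by
    apply prod_eq_one
    intro q hq
    rw [mem_filter] at hq
    exact (hu q hq.1).resolve_right hq.2
  have h2 : ∏ q ∈ S.filter (fun q => u q = -1), u q = ∏ q ∈ S.filter (fun q => u q = -1), -1 :=
    prod_congr rfl fun q hq => (mem_filter.mp hq).2
  rw [h1, h2, mul_one, prod_const]

/-- the combinatorial core -/
lemma core {S : Finset ℕ} {u v : ℕ → ℤ} (hu : ∀ q ∈ S, u q = 1 ∨ u q = -1)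
    (hv : ∀ q ∈ S, v q = 1 ∨ v q = -1) (hodd : Odd S.card) (hprod : ∏ q ∈ S, u q = -1)
    (hex : ∃ r ∈ S, u r = 1)
    (htr : ∀ q ∈ S, ∀ r ∈ S, ∀ s ∈ S, r ≠ s → u q = -1 → u r = 1 → u s = 1 →
      v q * v r * v s = -1) :
    (∃ q ∈ S, ∃ r ∈ S, ∃ s ∈ S, r ≠ s ∧ u q = -1 ∧ u r = 1 ∧ u s = 1) ∧ ∏ q ∈ S, v q = -1 := by
  classical
  set A := S.filter fun q => u q = -1 with hA
  set B := S.filter fun q => u q = 1 with hB
  have hBn : S.filter (fun q => ¬ u q = -1) = B := by
    rw [hB]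
    apply filter_congr
    intro q hq
    rcases hu q hq with h | h
    · simp [h]
    · simp [h]
  have hAodd : Odd A.card := by
    rw [prod_pm hu] at hprod
    by_contra h
    rw [Nat.not_odd_iff_even] at h
    rw [h.neg_one_pow] at hprod
    norm_num at hprod
  have hcard : A.card + B.card = S.card := by
    rw [← hBn]
    exact card_filter_add_card_filter_not (s := S) (fun q => u q = -1)
  have hBeven : Even B.card := by
    rw [← hcard] at hodd
    exact (Nat.odd_add.mp hodd).mp hAodd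
  obtain ⟨r, hr, hur⟩ := hex
  have hrB : r ∈ B := mem_filter.mpr ⟨hr, hur⟩
  have hB2 : 1 < B.card := by
    have h1 : 0 < B.card := card_pos.mpr ⟨r, hrB⟩
    obtain ⟨k, hk⟩ := hBeven
    omega
  obtain ⟨q0, hq0⟩ := card_pos.mp hAodd.pos
  obtain ⟨s, hsB, hsr⟩ := exists_mem_ne hB2 r
  have hq0' := mem_filter.mp hq0
  have hs' := mem_filter.mp hsB
  refine ⟨⟨q0, hq0'.1, r, hr, s, hs'.1, hsr.symm, hq0'.2, hur, hs'.2⟩, ?_⟩
  have htr' : ∀ q ∈ A, ∀ r ∈ B, ∀ s ∈ B, r ≠ s → v q * v r * v s = -1 := by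
    intro q hq r hr s hs hrs
    have h1 := mem_filter.mp hq
    have h2 := mem_filter.mp hr
    have h3 := mem_filter.mp hs
    exact htr q h1.1 r h2.1 s h3.1 hrs h1.2 h2.2 h3.2
  have hsplit : ∏ q ∈ S, v q = (∏ q ∈ A, v q) * ∏ q ∈ B, v q := by
    rw [← hBn]
    exact (prod_filter_mul_prod_filter_not S (fun q => u q = -1) v).symm
  have hvA : ∀ q ∈ A, v q = 1 ∨ v q = -1 := fun q hq => hv q (mem_filter.mp hq).1
  have hvB : ∀ q ∈ B, v q = 1 ∨ v q = -1 := fun q hq => hv q (mem_filter.mp hq).1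
  rw [hsplit]
  by_cases hall : ∀ t ∈ B, v t = v r
  · -- all the same
    have h1 : ∏ q ∈ B, v q = 1 := by
      rw [prod_congr rfl hall, prod_const]
      obtain ⟨k, hk⟩ := hBeven
      rw [hk, ← two_mul, pow_mul]
      rcases hvB r hrB with h | h <;> rw [h] <;> norm_num
    have h2 : ∀ q ∈ A, v q = -1 := by
      intro q hq
      have h3 := htr' q hq r hrB s hsB hsr.symm
      rw [hall s hsB, mul_assoc] at h3
      rcases hvB r hrB with h | h <;> rw [h] at h3 <;> linarith
    rw [h1, prod_congr rfl h2, prod_const, hAodd.neg_one_pow]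
    norm_num
  · push Not at hall
    obtain ⟨t, ht, htr2⟩ := hall
    have htne : r ≠ t := fun h => htr2 (h ▸ rfl)
    have hprod2 : v r * v t = -1 := by
      rcases hvB r hrB with h | h <;> rcases hvB t ht with h' | h'
      · exact absurd (h'.trans h.symm) htr2
      · rw [h, h']; norm_num
      · rw [h, h']; norm_num
      · exact absurd (h'.trans h.symm) htr2
    have hA1 : ∀ q ∈ A, v q = 1 := by
      intro q hq
      have h3 := htr' q hq r hrB t ht htne
      rw [mul_assoc, hprod2] at h3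
      linarith
    have hBeq : B = {r, t} := by
      ext x
      rw [mem_insert, mem_singleton]
      constructor
      · intro hx
        by_contra hne
        push Not at hne
        have h4 := htr' q0 hq0 r hrB x hx (Ne.symm hne.1)
        have h5 := htr' q0 hq0 t ht x hx (Ne.symm hne.2)
        rw [hA1 q0 hq0, one_mul] at h4 h5
        rcases hvB x hx with h | h
        · rw [h, mul_one] at h4 h5
          exact htr2 (h5.trans h4.symm)
        · rw [h] at h4 h5
          apply htr2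
          linarith
      · rintro (h | h)
        · rw [h]; exact hrB
        · rw [h]; exact ht
    rw [prod_eq_one hA1, hBeq, prod_pair htne, hprod2]
    norm_num

/-- no bad set -/
theorem no_bad {p m : ℕ} [NeZero m] (hpm : p.Coprime m) (hbad : NoBadTriple p m) {S : Finset ℕ}
    (hSm : S ⊆ m.primeFactors) (hS : ∀ q ∈ S, q.Prime ∧ q % 4 = 3) (hodd : Odd S.card)
    (hJ : jacobiSym p (∏ q ∈ S, q) = -1) (hD : ¬ Dead p S) :
    p ≠ 2 ∧ jacobiSym 2 (∏ q ∈ S, q) = -1 := by
  have hcop : ∀ q ∈ S, p.Coprime q := fun q hq =>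
    Nat.Coprime.coprime_dvd_right (Nat.dvd_of_mem_primeFactors (hSm hq)) hpm
  have hu : ∀ q ∈ S, jacobiSym p q = 1 ∨ jacobiSym p q = -1 := by
    intro q hq
    rcases jac_eq (hS q hq).1 (hcop q hq) with h | h
    · exact Or.inl h.2
    · exact Or.inr h.2
  have h2q : ∀ q ∈ S, Nat.Coprime 2 q := by
    intro q hq
    have h1 := hS q hq
    rw [Nat.coprime_primes Nat.prime_two h1.1]
    have := h1.2
    omega
  have hv : ∀ q ∈ S, jacobiSym 2 q = 1 ∨ jacobiSym 2 q = -1 := by
    intro q hq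
    rcases jac_eq (hS q hq).1 (h2q q hq) with h | h
    · left; exact_mod_cast h.2
    · right; exact_mod_cast h.2
  have hprod : ∏ q ∈ S, jacobiSym p q = -1 := by
    rw [jacobi_prod' S (fun q hq => (hS q hq).1)]
    exact hJ
  have hex : ∃ r ∈ S, jacobiSym p r = 1 := by
    by_contra h
    push Not at h
    exact hD (dead_all hS fun q hq => (hu q hq).resolve_left (h q hq))
  have hsq : ∀ q ∈ S, (jacobiSym p q = 1 → IsSquare (p : ZMod q)) ∧
      (jacobiSym p q = -1 → ¬ IsSquare (p : ZMod q)) := by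
    intro q hq
    rcases jac_eq (hS q hq).1 (hcop q hq) with h | h
    · exact ⟨fun _ => h.1, fun h' => by rw [h.2] at h'; norm_num at h'⟩
    · exact ⟨fun h' => by rw [h.2] at h'; norm_num at h', fun _ => h.1⟩
  have hne2 : ∀ q ∈ S, q ≠ 2 := fun q hq h => by have := (hS q hq).2; omega
  have hdvd : ∀ q ∈ S, q ∣ m := fun q hq => Nat.dvd_of_mem_primeFactors (hSm hq)
  have htriple : ∀ q ∈ S, ∀ r ∈ S, ∀ s ∈ S, r ≠ s → jacobiSym p q = -1 → jacobiSym p r = 1 →
      jacobiSym p s = 1 → p ≠ 2 ∧ q * r * s % 8 = 3 := by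
    intro q hq r hr s hs hrs h1 h2 h3
    exact hbad q r s (hS q hq).1 (hS r hr).1 (hS s hs).1 (hdvd q hq) (hdvd r hr) (hdvd s hs)
      (hne2 q hq) (hne2 r hr) (hne2 s hs) hrs ((hsq q hq).2 h1) ((hsq r hr).1 h2) ((hsq s hs).1 h3)
  obtain ⟨⟨q, hq, r, hr, s, hs, hrs, h1, h2, h3⟩, hfin⟩ := core hu hv hodd hprod hex (by
    intro q hq r hr s hs hrs h1 h2 h3
    have h4 := (htriple q hq r hr s hs hrs h1 h2 h3).2
    have hz1 : NeZero q := ⟨(hS q hq).1.ne_zero⟩
    have hz2 : NeZero r := ⟨(hS r hr).1.ne_zero⟩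
    have hz3 : NeZero s := ⟨(hS s hs).1.ne_zero⟩
    have hz4 : NeZero (q * r) := ⟨Nat.mul_ne_zero hz1.out hz2.out⟩
    rw [← jacobiSym.mul_right, ← jacobiSym.mul_right, jacobiSym.at_two (by rw [Nat.odd_iff]; omega)]
    have h5 : ((q * r * s : ℕ) : ZMod 8) = 3 := by
      rw [← Nat.mod_add_div (q * r * s) 8, h4]
      push_cast
      have h8 : (8 : ZMod 8) = 0 := by decide
      rw [h8, zero_mul, add_zero]
    rw [h5]
    decide)
  refine ⟨(htriple q hq r hr s hs hrs h1 h2 h3).1, ?_⟩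
  rw [← jacobi_prod' S (fun q hq => (hS q hq).1)]
  exact hfin

end Pool.Agent.L5helper47.TP

namespace Pool.Agent.L5helper47.TP

/-- there is no bad triple if all odd prime factors are congruent to three modulo eight -/
lemma noBad_of_eight {p m : ℕ} (h : ∀ q : ℕ, q.Prime → q ∣ m → q = 2 ∨ q % 8 = 3) :
    NoBadTriple p m := by
  intro q r s hq hr hs hqm hrm hsm hq2 hr2 hs2 _ _ hpr _
  have h1 := (h q hq hqm).resolve_left hq2
  have h3 := (h r hr hrm).resolve_left hr2
  have h4 := (h s hs hsm).resolve_left hs2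
  constructor
  · rintro rfl
    have : Fact r.Prime := ⟨hr⟩
    push_cast at hpr
    rw [ZMod.exists_sq_eq_two_iff hr2] at hpr
    omega
  · rw [Nat.mul_mod, Nat.mul_mod q r, h1, h3, h4]

/-- there is no bad triple if `p` is a square modulo at most one odd prime factor -/
lemma noBad_of_few {p m : ℕ} (h : ∀ r s : ℕ, r.Prime → s.Prime → r ∣ m → s ∣ m → r ≠ 2 → s ≠ 2 →
    IsSquare (p : ZMod r) → IsSquare (p : ZMod s) → r = s) : NoBadTriple p m := by
  intro q r s _ hr hs _ hrm hsm _ hr2 hs2 hrs _ h1 h3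
  exact absurd (h r s hr hs hrm hsm hr2 hs2 h1 h3) hrs

/-- there is no bad triple if `p` is a square modulo all odd prime factors -/
lemma noBad_of_all {p m : ℕ} (h : ∀ q : ℕ, q.Prime → q ∣ m → q ≠ 2 → IsSquare (p : ZMod q)) :
    NoBadTriple p m := by
  intro q r s hq _ _ hqm _ _ hq2 _ _ _ h1
  exact absurd (h q hq hqm hq2) h1

end Pool.Agent.L5helper47.TP
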