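import Pool.Agent.L5helper47.TP.Elim
import Pool.Agent.L5helper47.TP.Chr
import Pool.Agent.L5helper47.TP.NoBad

/-!
# The general criterion
-/

set_option linter.unusedSectionVars false
set_option autoImplicit false

namespace Pool.Agent.L5helper47.TP

open Finset Pool.Agent.H916R2 Pool.Agent.H916T Pool.Agent.H916U Pool.Agent.H916Z Pool.Agent.H916Q
  Pool.Agent.H916Y Pool.Agent.N992 Pool.Agent.N214.FT

variable {p m : ℕ}

lemma prod_mod_four {S : Finset ℕ} (hS : ∀ q ∈ S, q.Prime ∧ q % 4 = 3) :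
    (Odd S.card → (∏ q ∈ S, q) % 4 = 3) ∧ (Even S.card → (∏ q ∈ S, q) % 4 = 1) := by
  have h1 : ((∏ q ∈ S, q : ℕ) : ZMod 4) = (-1) ^ S.card := by
    push_cast
    rw [← prod_const]
    refine prod_congr rfl fun q hq => ?_
    have h2 := (hS q hq).2
    rw [← Nat.mod_add_div q 4, h2]
    push_cast
    have h4 : (4 : ZMod 4) = 0 := by decide
    rw [h4, zero_mul, add_zero]
    decide
  constructor
  · intro h
    rw [h.neg_one_pow] at h1
    have h3 : ((∏ q ∈ S, q : ℕ) : ZMod 4) = ((3 : ℕ) : ZMod 4) := by rw [h1]; decide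
    rw [ZMod.natCast_eq_natCast_iff'] at h3
    exact h3
  · intro h
    rw [h.neg_one_pow] at h1
    have h3 : ((∏ q ∈ S, q : ℕ) : ZMod 4) = ((1 : ℕ) : ZMod 4) := by rw [h1]; decide
    rw [ZMod.natCast_eq_natCast_iff'] at h3
    exact h3

lemma two_of_mod_eight {n : ℕ} (h : n % 8 = 3) : jacobiSym 2 n = -1 := by
  rw [jacobiSym.at_two (by rw [Nat.odd_iff]; omega)]
  have h5 : ((n : ℕ) : ZMod 8) = 3 := by
    rw [← Nat.mod_add_div n 8, h]
    push_cast
    have h8 : (8 : ZMod 8) = 0 := by decide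
    rw [h8, zero_mul, add_zero]
  rw [h5]
  decide

lemma prod_facts {S : Finset ℕ} (hm : 0 < m) (hSm : S ⊆ m.primeFactors) (hne : S.Nonempty)
    (h2 : 2 ∉ S) : Squarefree (∏ q ∈ S, q) ∧ Odd (∏ q ∈ S, q) ∧ 1 < ∏ q ∈ S, q ∧
      (∏ q ∈ S, q) ∣ m ∧ (∏ q ∈ S, q).primeFactors = S := by
  have hprime : ∀ q ∈ S, q.Prime := fun q hq => Nat.prime_of_mem_primeFactors (hSm hq)
  have hpf : (∏ q ∈ S, q).primeFactors = S := Nat.primeFactors_prod hprime
  refine ⟨?_, ?_, ?_, prod_primes_dvd' hSm, hpf⟩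
  · exact Finset.squarefree_prod_of_pairwise_isCoprime (fun q hq r hr hqr => by
      show IsRelPrime q r
      rw [← Nat.coprime_iff_isRelPrime]
      exact (Nat.coprime_primes (hprime q hq) (hprime r hr)).mpr hqr)
      (fun q hq => (hprime q hq).squarefree)
  · apply Finset.prod_induction _ Odd (fun _ _ => Odd.mul) odd_one
    intro q hq
    exact (hprime q hq).odd_of_ne_two (fun h => h2 (h ▸ hq))
  · obtain ⟨q, hq⟩ := hne
    have h1 : q ∣ ∏ q ∈ S, q := Finset.dvd_prod_of_mem _ hq
    have h3 := (hprime q hq).one_lt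
    have h4 : 0 < ∏ q ∈ S, q := Finset.prod_pos fun q hq => (hprime q hq).pos
    exact lt_of_lt_of_le h3 (Nat.le_of_dvd h4 h1)

/-- the killers of a family of characters -/
def KillerIn (KK : Multiset (ZMod m) → Prop) (S : Finset ℕ) : Prop :=
  ∃ y : Multiset (ZMod m), KK y ∧ Odd (y.countP (Supp S)) ∧
    ∀ V : Finset ℕ, V.Nonempty → 2 ∉ V → ¬ V ⊆ S → Even (y.countP (Supp V))

open scoped Classical in
/-- **The reduction to the parities.** -/
theorem assemble (hp : p.Prime) (hm : 0 < m) (hpm : p.Coprime m)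
    (B : ∀ M : ℕ, Multiset (ZMod M) → Prop) (KK : Multiset (ZMod m) → Prop)
    (hKK : ∀ x, KK x → IsTate p m x)
    (hB : ∀ x, KK x → ∀ N M : ℕ, NeZero M → N * m = M → p.Coprime M →
      B M ((x.map (iota N : ZMod m → ZMod M)).map Neg.neg))
    {s : Multiset (ZMod m)} (hs : IsTate p m s) (hne : s ≠ 0)
    (hdich : ∀ S : Finset ℕ, S ⊆ m.primeFactors → S.Nonempty → 2 ∉ S → ¬ Dead p S →
      KillerIn KK S ∨ OddCharacter p m S) :
    ∃ N : ℕ, 0 < N ∧ p.Coprime N ∧ ∀ M : ℕ, N * m = M →
      H916T.Generated M (fun t => SurfaceTate p M t ∨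
        (∃ q : ℕ, q.Prime ∧ q ∣ M ∧ Standard q M t) ∨ B M t)
        (s.map (iota N : ZMod m → ZMod M)) := by
  have hz : NeZero m := ⟨hm.ne'⟩
  obtain ⟨l, hl, hl2⟩ := elim hpm KK hKK hs (by
    intro S hSm hSne h2 hD
    rcases hdich S hSm hSne h2 hD with h | h
    · exact Or.inl h
    · right
      intro s hs hbig
      exact even_chr hm hpm hs hSm h2 hSne h hbig) (m.primeFactors.card + 1)
  have hT : IsTate p m (s + l.sum) :=
    isTate_add hpm hs (isTate_msum hpm l fun x hx => hKK x (hl x hx))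
  have hne' : s + l.sum ≠ 0 := by
    intro h
    have h2 := congrArg Multiset.card h
    rw [Multiset.card_add, Multiset.card_zero] at h2
    exact hne (Multiset.card_eq_zero.mp (by omega))
  have hpar : ∀ a : ZMod m, Even ((s + l.sum).countP (fun b => Relation.EqvGen (Link p) a b)) := by
    refine link_parity2 hT.1 hT.2.1 (fun S => S.Nonempty ∧ Dead p S) ?_ ?_
    · rintro S ⟨hSne, hSD⟩ a ha
      exact dead_elem S hSne hSD a ha
    · intro S hSne h2S hSD
      exact hl2 S hSne h2S (fun h => hSD ⟨hSne, h⟩) (by omega)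
  obtain ⟨N, hN, hpN, H⟩ := parity_main hp hm hpm hT hne' hpar
  refine ⟨N, hN, hpN, ?_⟩
  intro M hM
  have h2 := H M hM
  have hM0 : 0 < M := by rw [← hM]; exact Nat.mul_pos hN hm
  have hzM : NeZero M := ⟨hM0.ne'⟩
  have hpM : p.Coprime M := by rw [← hM]; exact Nat.Coprime.mul_right hpN hpm
  rw [Multiset.map_add, map_multiset_sum] at h2
  refine remove_base (l.map fun x => x.map (iota N : ZMod m → ZMod M)) ?_ _
    (generated_mono (base := ZBase p M) ?_ h2)
  · intro x hx
    obtain ⟨y, hy, rfl⟩ := Multiset.mem_map.mp hx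
    exact Or.inr (Or.inr (hB y (hl y hy) N M hzM hM hpM))
  · rintro t (ht | ht)
    · exact Or.inl ht
    · exact Or.inr (Or.inl ht)

/-- the killers of Hodge type -/
lemma killer_hodgeType [NeZero m] {S : Finset ℕ} (hSm : S ⊆ m.primeFactors) (hne : S.Nonempty)
    (h : HodgeType m (∏ q ∈ S, q)) : KillerIn (ModularTate 1 m) S := by
  have hS : ∀ q ∈ S, q.Prime ∧ q % 4 = 3 := fun q hq =>
    ⟨Nat.prime_of_mem_primeFactors (hSm hq), h.1 q (Nat.prime_of_mem_primeFactors (hSm hq))
      (Finset.dvd_prod_of_mem _ hq)⟩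
  rcases Nat.even_or_odd S.card with heven | hoddc
  · exact killer_of_even (Nat.coprime_one_left m) hSm hS hne heven
  · have hm4 := (prod_mod_four hS).1 hoddc
    rcases h.2 with h | ⟨h4m, h⟩
    · omega
    · exact killer_of_four (Nat.coprime_one_left m) h4m hSm hS hne hoddc (two_of_mod_eight h)

/-- the killers of Tate type -/
lemma killer_tateType [NeZero m] (hpm : p.Coprime m) {S : Finset ℕ} (hSm : S ⊆ m.primeFactors)
    (hne : S.Nonempty) (hD : ¬ Dead p S) (h : TateType p (∏ q ∈ S, q)) :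
    KillerIn (ModularTate p m) S := by
  have hS : ∀ q ∈ S, q.Prime ∧ q % 4 = 3 := fun q hq =>
    ⟨Nat.prime_of_mem_primeFactors (hSm hq), h.1 q (Nat.prime_of_mem_primeFactors (hSm hq))
      (Finset.dvd_prod_of_mem _ hq)⟩
  rcases Nat.even_or_odd S.card with heven | hoddc
  · exact killer_of_even hpm hSm hS hne heven
  · by_cases hcard : 1 < S.card
    · exact killer_of_odd hpm hSm hS hcard h.2
    · exfalso
      have h1 : S.card = 1 := by
        have := hne.card_pos
        omega
      obtain ⟨q, rfl⟩ := Finset.card_eq_one.mp h1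
      have h2 := h.2
      rw [prod_singleton] at h2
      exact hD (dead_single (hS q (mem_singleton_self q)).1 (hS q (mem_singleton_self q)).2 h2)

lemma isHodge_of_one [NeZero m] {s : Multiset (ZMod m)} (hs : IsTate 1 m s) : IsHodge m s := by
  obtain ⟨h0, he, hsum, hH⟩ := hs
  refine ⟨h0, he, hsum, fun t => ?_⟩
  have h1 := hH t
  simp only [Nat.cast_one, orderOf_one, sum_range_one, pow_zero, one_mul] at h1
  exact h1

lemma tate_of_hodge [NeZero m] (hpm : p.Coprime m) {s : Multiset (ZMod m)}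
    (hs : IsHodge m s) : IsTate p m s := by
  obtain ⟨h0, he, hsum, hH⟩ := hs
  refine ⟨h0, he, hsum, fun t => ?_⟩
  have hu : IsUnit (p : ZMod m) := isUnit_p hpm
  rw [mul_sum]
  have h1 : ∀ j ∈ range (orderOf (p : ZMod m)),
      2 * (s.map fun a => ((p : ZMod m) ^ j * ((t : ZMod m) * a)).val).sum =
        m * Multiset.card s := by
    intro j _
    have h2 := hH (hu.unit ^ j * t)
    simp only [Units.val_mul, Units.val_pow_eq_pow_val, IsUnit.unit_spec, mul_assoc] at h2
    exact h2
  rw [sum_congr rfl h1, sum_const, card_range, smul_eq_mul]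

lemma modularHodge_of_one {s : Multiset (ZMod m)} (hs : ModularTate 1 m s) : ModularHodge m s := by
  obtain ⟨h1, hz, L, r, h2, h3, h4⟩ := hs
  exact ⟨hz, isHodge_of_one h1, L, r, h2, h3, h4⟩

/-- **The criterion with surfaces only.** -/
theorem criterion0 (hp : p.Prime) (hm : 0 < m) (hpm : p.Coprime m)
    (hgood : ∀ n : ℕ, Squarefree n → Odd n → 1 < n → n ∣ m →
      (∃ k : ℕ, n ∣ p ^ k + 1) ∨ OddCharacter p m n.primeFactors)
    {s : Multiset (ZMod m)} (hs : IsTate p m s) (hne : s ≠ 0) :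
    ∃ N : ℕ, 0 < N ∧ p.Coprime N ∧ ∀ M : ℕ, N * m = M →
      H916T.Generated M (fun t => SurfaceTate p M t ∨
        (∃ q : ℕ, q.Prime ∧ q ∣ M ∧ Standard q M t) ∨ False)
        (s.map (iota N : ZMod m → ZMod M)) := by
  refine assemble hp hm hpm (fun _ _ => False) (fun _ => False) (fun _ h => h.elim)
    (fun _ h => h.elim) hs hne ?_
  intro S hSm hSne h2 hD
  obtain ⟨hsq, hodd, h1n, hnm, hpf⟩ := prod_facts hm hSm hSne h2
  rcases hgood _ hsq hodd h1n hnm with h | h
  · exact absurd h hD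
  · rw [hpf] at h
    exact Or.inr h

/-- **The criterion with modular Hodge characters.** -/
theorem criterion1 (hp : p.Prime) (hm : 0 < m) (hpm : p.Coprime m)
    (hgood : ∀ n : ℕ, Squarefree n → Odd n → 1 < n → n ∣ m →
      (∃ k : ℕ, n ∣ p ^ k + 1) ∨ OddCharacter p m n.primeFactors ∨ HodgeType m n)
    {s : Multiset (ZMod m)} (hs : IsTate p m s) (hne : s ≠ 0) :
    ∃ N : ℕ, 0 < N ∧ p.Coprime N ∧ ∀ M : ℕ, N * m = M →
      H916T.Generated M (fun t => SurfaceTate p M t ∨
        (∃ q : ℕ, q.Prime ∧ q ∣ M ∧ Standard q M t) ∨ ModularHodge M t)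
        (s.map (iota N : ZMod m → ZMod M)) := by
  have hz : NeZero m := ⟨hm.ne'⟩
  refine assemble hp hm hpm (fun M t => ModularHodge M t) (ModularTate 1 m)
    (fun x hx => tate_of_hodge hpm (isHodge_of_one hx.1)) ?_ hs hne ?_
  · intro x hx N M _ hM _
    exact modularHodge_of_one ((hx.lift hM (Nat.coprime_one_left M)).neg (Nat.coprime_one_left M))
  · intro S hSm hSne h2 hD
    obtain ⟨hsq, hodd, h1n, hnm, hpf⟩ := prod_facts hm hSm hSne h2
    rcases hgood _ hsq hodd h1n hnm with h | h | h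
    · exact absurd h hD
    · rw [hpf] at h
      exact Or.inr h
    · exact Or.inl (killer_hodgeType hSm hSne h)

/-- **The criterion with modular Tate characters.** -/
theorem criterion2 (hp : p.Prime) (hm : 0 < m) (hpm : p.Coprime m)
    (hgood : ∀ n : ℕ, Squarefree n → Odd n → 1 < n → n ∣ m →
      (∃ k : ℕ, n ∣ p ^ k + 1) ∨ OddCharacter p m n.primeFactors ∨ HodgeType m n ∨ TateType p n)
    {s : Multiset (ZMod m)} (hs : IsTate p m s) (hne : s ≠ 0) :
    ∃ N : ℕ, 0 < N ∧ p.Coprime N ∧ ∀ M : ℕ, N * m = M →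
      H916T.Generated M (fun t => SurfaceTate p M t ∨
        (∃ q : ℕ, q.Prime ∧ q ∣ M ∧ Standard q M t) ∨ ModularTate p M t)
        (s.map (iota N : ZMod m → ZMod M)) := by
  have hz : NeZero m := ⟨hm.ne'⟩
  refine assemble hp hm hpm (fun M t => ModularTate p M t) (ModularTate p m)
    (fun x hx => hx.1) ?_ hs hne ?_
  · intro x hx N M _ hM hpM
    exact (hx.lift hM hpM).neg hpM
  · intro S hSm hSne h2 hD
    obtain ⟨hsq, hodd, h1n, hnm, hpf⟩ := prod_facts hm hSm hSne h2
    rcases hgood _ hsq hodd h1n hnm with h | h | h | h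
    · exact absurd h hD
    · rw [hpf] at h
      exact Or.inr h
    · left
      obtain ⟨y, hy, h3, h4⟩ := killer_hodgeType hSm hSne h
      refine ⟨y, ⟨tate_of_hodge hpm (isHodge_of_one hy.1), hy.2⟩, h3, h4⟩
    · exact Or.inl (killer_tateType hpm hSm hSne hD h)

/-- the quadratic character modulo an odd prime, with complex values -/
noncomputable def qch (q : ℕ) : DirichletCharacter ℂ q := by
  classical
  exact if h : q.Prime then
    haveI : Fact q.Prime := ⟨h⟩
    (quadraticChar (ZMod q)).ringHomComp (Int.castRingHom ℂ) else 1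

lemma qch_apply {q : ℕ} (hq : q.Prime) (a : ℤ) : qch q (a : ZMod q) = ((jacobiSym a q : ℤ) : ℂ) := by
  have : Fact q.Prime := ⟨hq⟩
  unfold qch
  rw [dif_pos hq]
  rw [MulChar.ringHomComp_apply, ← jacobiSym.legendreSym.to_jacobiSym]
  rfl

lemma qch_even {q : ℕ} (hq : q.Prime) (h2 : q ≠ 2) : Even (orderOf (qch q)) := by
  have : Fact q.Prime := ⟨hq⟩
  have hF : ringChar (ZMod q) ≠ 2 := by rw [ZMod.ringChar_zmod_n]; exact h2
  have h1 : qch q ≠ 1 := by
    obtain ⟨a, ha⟩ := FiniteField.exists_nonsquare hF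
    have ha0 : a ≠ 0 := fun h => ha (h ▸ IsSquare.zero)
    intro h
    have h3 : qch q a = 1 := by
      rw [h]
      exact MulChar.one_apply (isUnit_iff_ne_zero.mpr ha0)
    have h4 : qch q a = -1 := by
      unfold qch
      rw [dif_pos hq, MulChar.ringHomComp_apply,
        quadraticChar_neg_one_iff_not_isSquare.mpr ha]
      simp
    rw [h3] at h4
    norm_num at h4
  have h3 : (qch q) ^ 2 = 1 := by
    unfold qch
    rw [dif_pos hq]
    ext a
    rw [MulChar.pow_apply_coe, MulChar.ringHomComp_apply, ← map_pow,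
      quadraticChar_sq_one a.ne_zero, map_one, MulChar.one_apply_coe]
  have h4 : orderOf (qch q) = 2 := by
    have h5 := orderOf_dvd_of_pow_eq_one h3
    rcases (Nat.dvd_prime Nat.prime_two).mp h5 with h | h
    · exact absurd (orderOf_eq_one_iff.mp h) h1
    · exact h
  rw [h4]
  exact even_two

lemma qch_prod {S : Finset ℕ} (hS : ∀ q ∈ S, q.Prime) (a : ℤ) :
    ∏ q ∈ S, qch q (a : ZMod q) = ((jacobiSym a (∏ q ∈ S, q) : ℤ) : ℂ) := by
  rw [← jacobi_prod' S hS]
  push_cast
  exact prod_congr rfl fun q hq => qch_apply (hS q hq) a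

/-- **All odd prime factors are congruent to three modulo four.** -/
theorem good_three (hpm : p.Coprime m)
    (hm3 : ∀ q : ℕ, q.Prime → q ∣ m → q = 2 ∨ q % 4 = 3) {n : ℕ} (hsq : Squarefree n)
    (hodd : Odd n) (h1n : 1 < n) (hnm : n ∣ m) :
    OddCharacter p m n.primeFactors ∨ HodgeType m n ∨ TateType p n := by
  have hq3 : ∀ q : ℕ, q.Prime → q ∣ n → q % 4 = 3 := by
    intro q hq hqn
    rcases hm3 q hq (hqn.trans hnm) with h | h
    · exfalso
      rw [h] at hqn
      exact (Nat.not_even_iff_odd.mpr hodd) (even_iff_two_dvd.mpr hqn)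
    · exact h
  have hmem : ∀ q ∈ n.primeFactors, q.Prime ∧ q % 4 = 3 := fun q hq =>
    ⟨Nat.prime_of_mem_primeFactors hq, hq3 q (Nat.prime_of_mem_primeFactors hq)
      (Nat.dvd_of_mem_primeFactors hq)⟩
  have hprod : ∏ q ∈ n.primeFactors, q = n := Nat.prod_primeFactors_of_squarefree hsq
  have hpn : p.Coprime n := Nat.Coprime.coprime_dvd_right hnm hpm
  by_cases h : n % 4 = 1 ∨ (4 ∣ m ∧ n % 8 = 3)
  · exact Or.inr (Or.inl ⟨hq3, h⟩)
  · by_cases hb : jacobiSym p n = -1
    · exact Or.inr (Or.inr ⟨hq3, hb⟩)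
    push Not at h
    obtain ⟨ha, hc⟩ := h
    have hn4 : n % 4 = 3 := by
      have := Nat.odd_iff.mp hodd
      omega
    have hJp : jacobiSym p n = 1 := by
      rcases jacobiSym.eq_one_or_neg_one (show Int.gcd (p : ℤ) (n : ℤ) = 1 by exact_mod_cast hpn)
        with h | h
      · exact h
      · exact absurd h hb
    left
    refine ⟨qch, fun q hq => qch_even (hmem q hq).1 (by have := (hmem q hq).2; omega), ?_, ?_, ?_⟩
    · have h1 := qch_prod (fun q hq => (hmem q hq).1) (-1)
      push_cast at h1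
      rw [h1, hprod, jacobiSym.at_neg_one hodd, ZMod.χ₄_nat_three_mod_four hn4]
      norm_num
    · have h1 := qch_prod (fun q hq => (hmem q hq).1) (p : ℤ)
      push_cast at h1
      rw [h1, hprod, hJp]
      norm_num
    · intro j hj hjm hjS h24
      have hjn : j.Coprime n := by
        rw [hj.coprime_iff_not_dvd]
        intro h
        exact hjS (Nat.mem_primeFactors.mpr ⟨hj, h, by omega⟩)
      have h1 := qch_prod (fun q hq => (hmem q hq).1) (j : ℤ)
      push_cast at h1
      rw [h1, hprod]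
      by_cases hj2 : j = 2
      · left
        subst hj2
        have h8 : n % 8 = 7 := by
          have h9 := hc (h24 rfl)
          omega
        have h3 : jacobiSym ((2 : ℕ) : ℤ) n = 1 := by
          push_cast
          rw [jacobiSym.at_two hodd]
          have h5 : ((n : ℕ) : ZMod 8) = 7 := by
            rw [← Nat.mod_add_div n 8, h8]
            push_cast
            have h8 : (8 : ZMod 8) = 0 := by decide
            rw [h8, zero_mul, add_zero]
          rw [h5]
          decide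
        rw [h3]
        norm_num
      · have hj3 : j % 4 = 3 := (hm3 j hj hjm).resolve_left hj2
        rcases jacobiSym.eq_one_or_neg_one (show Int.gcd (j : ℤ) (n : ℤ) = 1 by
          exact_mod_cast hjn) with h | h
        · left; rw [h]; norm_num
        · right; rw [h]; exact ⟨hj3, by norm_num⟩

end Pool.Agent.L5helper47.TP
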