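import Pool.Agent.L5helper47.TP.Gen
import Mathlib.Order.WellFoundedSet

/-!
# One multiple of the degree for all Tate characters
-/

set_option linter.unusedSectionVars false
set_option autoImplicit false

namespace Pool.Agent.L5helper47.TP

open Finset Pool.Agent.H916R2 Pool.Agent.H916T Pool.Agent.H916U Pool.Agent.H916Z Pool.Agent.H916Q
  Pool.Agent.H916Y Pool.Agent.N992 Pool.Agent.N214.FT

variable {p m : ℕ}

/-- the minimal elements of a family of multisets are finite in number (Dickson) -/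
theorem finite_minimal [NeZero m] (P : Multiset (ZMod m) → Prop) :
    {s : Multiset (ZMod m) | P s ∧ ∀ t, P t → t ≤ s → t = s}.Finite := by
  classical
  set F : Set (Multiset (ZMod m)) := {s | P s ∧ ∀ t, P t → t ≤ s → t = s} with hF
  set φ : Multiset (ZMod m) → (ZMod m → ℕ) := fun s a => s.count a with hφ
  have hinj : Function.Injective φ := by
    intro s t h
    ext a
    exact congrFun h a
  have hle : ∀ s t, φ s ≤ φ t → s ≤ t := by
    intro s t h
    rw [Multiset.le_iff_count]
    exact h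
  have hanti : IsAntichain (· ≤ ·) (φ '' F) := by
    rintro _ ⟨s, hs, rfl⟩ _ ⟨t, ht, rfl⟩ hne h
    exact hne (congrArg φ (ht.2 s hs.1 (hle s t h)))
  have hpwo : (φ '' F).IsPWO := Set.isPWO_of_wellQuasiOrderedLE _
  have hfin : (φ '' F).Finite := hanti.finite_of_partiallyWellOrderedOn hpwo
  exact Set.Finite.of_finite_image hfin hinj.injOn

lemma isTate_sub [NeZero m] (hpm : p.Coprime m) {t u : Multiset (ZMod m)} (ht : IsTate p m t)
    (hs : IsTate p m (t + u)) : IsTate p m u := by
  refine isTate_of_W hpm ?_ ?_ ?_ ?_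
  · intro h
    exact hs.1 (Multiset.mem_add.mpr (Or.inr h))
  · have h1 := hs.2.1
    rw [Multiset.card_add] at h1
    exact (Nat.even_add.mp h1).mp ht.2.1
  · have h1 := hs.2.2.1
    rw [Multiset.sum_add, ht.2.2.1, zero_add] at h1
    exact h1
  · intro x
    have h1 := hs.W_sum hpm x
    rw [Multiset.map_add, Multiset.sum_add, ht.W_sum hpm, zero_add] at h1
    exact h1

/-- the base is stable under passing to multiples of the degree prime to `p` -/
def Stable (p : ℕ) (B : ∀ M : ℕ, Multiset (ZMod M) → Prop) : Prop :=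
  ∀ k M0 M : ℕ, NeZero M0 → NeZero M → k * M0 = M → p.Coprime M → ∀ t, B M0 t →
    B M (t.map (iota k : ZMod M0 → ZMod M))

lemma generated_lift {k m0 : ℕ} [NeZero m0] [NeZero m] (h : k * m0 = m)
    {B : Multiset (ZMod m0) → Prop} {B' : Multiset (ZMod m) → Prop}
    (hB : ∀ s, B s → B' (s.map (iota k : ZMod m0 → ZMod m))) {s : Multiset (ZMod m0)}
    (hs : H916T.Generated m0 B s) : H916T.Generated m B' (s.map (iota k : ZMod m0 → ZMod m)) := by
  induction hs with
  | ofBase s hs => exact H916T.Generated.ofBase _ (hB s hs)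
  | pair a ha =>
    have h1 : ({a, -a} : Multiset (ZMod m0)).map (iota k : ZMod m0 → ZMod m) =
        {(iota k a : ZMod m), -(iota k a : ZMod m)} := by
      rw [Multiset.insert_eq_cons, Multiset.map_cons, Multiset.map_singleton, iota_neg h]
      rfl
    rw [h1]
    exact H916T.Generated.pair _ (fun h2 => ha (iota_eq_zero h h2))
  | join s t _ _ ihs iht =>
    rw [Multiset.map_add]
    exact H916T.Generated.join _ _ ihs iht
  | cancel a s _ ih =>
    rw [Multiset.map_cons, Multiset.map_cons, iota_neg h] at ih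
    exact H916T.Generated.cancel _ _ ih

lemma standard_lift {k m0 q : ℕ} [NeZero m0] [NeZero m] (h : k * m0 = m) (hq : 0 < q)
    (hqm : q ∣ m0) {s : Multiset (ZMod m0)} (hs : Standard q m0 s) :
    Standard q m (s.map (iota k : ZMod m0 → ZMod m)) := by
  obtain ⟨hodd, a, ha, rfl⟩ := hs
  refine ⟨hodd, iota k a, ?_, ?_⟩
  · intro h2
    rw [← iota_natMul h] at h2
    exact ha (iota_eq_zero h h2)
  · have hdiv : (iota k ((m0 / q : ℕ) : ZMod m0) : ZMod m) = ((m / q : ℕ) : ZMod m) := by
      rw [iota_natCast h]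
      obtain ⟨d, hd⟩ := hqm
      have h1 : m0 / q = d := by rw [hd, Nat.mul_div_cancel_left d hq]
      have h2 : m / q = k * d := by
        rw [← h, hd, show k * (q * d) = q * (k * d) by ring, Nat.mul_div_cancel_left _ hq]
      rw [h1, h2]
    rw [Multiset.map_cons, Multiset.map_map, iota_neg h, iota_natMul h]
    congr 1
    refine Multiset.map_congr rfl fun i _ => ?_
    simp only [Function.comp_apply]
    rw [iota_add h, iota_natMul h, hdiv]

lemma stable_base {B : ∀ M : ℕ, Multiset (ZMod M) → Prop} (hB : Stable p B) :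
    Stable p (fun M t => SurfaceTate p M t ∨
        (∃ q : ℕ, q.Prime ∧ q ∣ M ∧ Standard q M t) ∨ B M t) := by
  intro k M0 M h0 h1 hk hpM t ht
  rcases ht with ht | ⟨q, hq, hqM, ht⟩ | ht
  · exact Or.inl (surface_iota hk hpM ht)
  · exact Or.inr (Or.inl ⟨q, hq, hqM.trans (Dvd.intro_left k hk), standard_lift hk hq.pos hqM ht⟩)
  · exact Or.inr (Or.inr (hB k M0 M h0 h1 hk hpM t ht))

/-- **One multiple of the degree suffices.** -/
theorem uniform (hm : 0 < m) (hpm : p.Coprime m) {B : ∀ M : ℕ, Multiset (ZMod M) → Prop}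
    (hB : Stable p B)
    (H : ∀ s : Multiset (ZMod m), IsTate p m s → s ≠ 0 → ∃ N : ℕ, 0 < N ∧ p.Coprime N ∧
      ∀ M : ℕ, N * m = M → H916T.Generated M (B M) (s.map (iota N : ZMod m → ZMod M))) :
    ∃ N : ℕ, 0 < N ∧ p.Coprime N ∧ ∀ s : Multiset (ZMod m), IsTate p m s → s ≠ 0 →
      ∀ M : ℕ, N * m = M → H916T.Generated M (B M) (s.map (iota N : ZMod m → ZMod M)) := by
  classical
  have hz : NeZero m := ⟨hm.ne'⟩
  have hfin := finite_minimal (m := m) (fun s => IsTate p m s ∧ s ≠ 0)
  set F := {s : Multiset (ZMod m) | (IsTate p m s ∧ s ≠ 0) ∧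
    ∀ t, (IsTate p m t ∧ t ≠ 0) → t ≤ s → t = s} with hF
  have H' : ∀ s : Multiset (ZMod m), ∃ N : ℕ, 0 < N ∧ p.Coprime N ∧ (IsTate p m s → s ≠ 0 →
      ∀ M : ℕ, N * m = M → H916T.Generated M (B M) (s.map (iota N : ZMod m → ZMod M))) := by
    intro s
    by_cases h : IsTate p m s ∧ s ≠ 0
    · obtain ⟨N, h1, h2, h3⟩ := H s h.1 h.2
      exact ⟨N, h1, h2, fun _ _ => h3⟩
    · exact ⟨1, one_pos, Nat.coprime_one_right p, fun h1 h2 => absurd ⟨h1, h2⟩ h⟩
  choose n hn1 hn2 hn3 using H'
  set N := ∏ s ∈ hfin.toFinset, n s with hN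
  have hNpos : 0 < N := Finset.prod_pos fun s _ => hn1 s
  have hNcop : p.Coprime N := Nat.Coprime.prod_right fun s _ => hn2 s
  refine ⟨N, hNpos, hNcop, ?_⟩
  have hmin : ∀ s ∈ F, ∀ M : ℕ, N * m = M →
      H916T.Generated M (B M) (s.map (iota N : ZMod m → ZMod M)) := by
    intro s hs M hM
    have hsF : s ∈ hfin.toFinset := hfin.mem_toFinset.mpr hs
    obtain ⟨c, hc⟩ : n s ∣ N := Finset.dvd_prod_of_mem n hsF
    have hM0 : 0 < M := by rw [← hM]; exact Nat.mul_pos hNpos hm
    have hzM : NeZero M := ⟨hM0.ne'⟩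
    have hm1 : 0 < n s * m := Nat.mul_pos (hn1 s) hm
    have hz1 : NeZero (n s * m) := ⟨hm1.ne'⟩
    have hM1 : c * (n s * m) = M := by rw [← hM, hc]; ring
    have hpM : p.Coprime M := by rw [← hM]; exact Nat.Coprime.mul_right hNcop hpm
    have h1 := hn3 s hs.1.1 hs.1.2 (n s * m) rfl
    have h2 := generated_lift hM1 (fun t ht => hB c (n s * m) M hz1 hzM hM1 hpM t ht) h1
    rw [Multiset.map_map] at h2
    have h4 : ((iota c : ZMod (n s * m) → ZMod M) ∘ (iota (n s) : ZMod m → ZMod (n s * m))) =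
        (iota N : ZMod m → ZMod M) := by
      funext a
      simp only [Function.comp_apply]
      rw [iota_comp hM1, hc, mul_comm]
    rw [h4] at h2
    exact h2
  intro s
  induction hcard : Multiset.card s using Nat.strong_induction_on generalizing s with
  | _ c ih =>
  intro hs hne M hM
  -- a minimal element below `s`
  have hex : ∃ t : Multiset (ZMod m), t ∈ F ∧ t ≤ s := by
    have hex0 : ∃ c : ℕ, ∃ t : Multiset (ZMod m), Multiset.card t = c ∧
        (IsTate p m t ∧ t ≠ 0) ∧ t ≤ s := ⟨_, s, rfl, ⟨hs, hne⟩, le_rfl⟩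
    obtain ⟨t, htc, ht, hts⟩ := Nat.find_spec hex0
    refine ⟨t, ⟨ht, fun u hu hut => ?_⟩, hts⟩
    by_contra hne'
    have h1 : Multiset.card u < Multiset.card t := Multiset.card_lt_card (lt_of_le_of_ne hut hne')
    exact Nat.find_min hex0 (by rw [← htc]; exact h1) ⟨u, rfl, hu, hut.trans hts⟩
  obtain ⟨t, htF, hts⟩ := hex
  obtain ⟨u, rfl⟩ := Multiset.le_iff_exists_add.mp hts
  by_cases hu : u = 0
  · rw [hu, add_zero]
    exact hmin t htF M hM
  · rw [Multiset.map_add]
    refine H916T.Generated.join _ _ (hmin t htF M hM) ?_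
    have hut := isTate_sub hpm htF.1.1 hs
    have htpos : 0 < Multiset.card t := Multiset.card_pos.mpr htF.1.2
    refine ih (Multiset.card u) ?_ u rfl hut hu M hM
    rw [← hcard, Multiset.card_add]
    omega

end Pool.Agent.L5helper47.TP
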